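import Pool.Agent.T9h22.Fin.Neg

/-!
# Core and graded core of the ideals `I_N` in a Gorenstein section ring: the negative answer

For every algebraically closed field `K` of characteristic zero there is a section ring `S` which is
Gorenstein (with `a`-invariant `-1`) and has rational singularities, with `S_1 = 0`, and such that
`core I_N ≠ graded core I_N` for all large `N`.

## The ring

Let `W = F_3^5`, with the Hamming weight `|u|`. There are eight blocks of variables, four leaves and
four partners. The variables of a leaf have labels `(u, t) ∈ W × F_3`, with multiplicities: for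
`u = 0`: 12 (`t = 0`), 11 (`t = 1`), 11 (`t = 2`); for `|u| = 1`: 1; for `|u| = 2`: 2; otherwise 0.
This makes `304 = 3 · 101 + 1` variables. The variables of a partner have labels `u ∈ W`, with
multiplicities 32 (`u = 0`), 6 (`|u| = 2`), 1 (`|u| = 3`), which makes `352 = 3 · 117 + 1` variables.
Let `R` be the quotient of the polynomial ring in all the variables by 101 (for a leaf) or 117 (for a
partner) linear combinations of the cubes of the variables of each block, such that all maximal
minors of the coefficient matrices are nonzero. So `R` is the multihomogeneous coordinate ring of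
`Y = Y_1 × ⋯ × Y_8`, where each `Y_i` is a smooth complete intersection of cubics in a projective
space, a Fano variety with canonical sheaf `O(-1)`; each point of `Y_i` has more than 101 (or 117)
nonzero coordinates.

The group `Γ = W^4 × C × F_3`, where `C` is the tetracode, acts on `R`: the element `(x, s, y)`
multiplies the variables of label `(u, t)` of the `i`-th leaf by `ω` to the power
`x_i · u + s_i t + y (|u| + t^2 - 1)`, and those of label `u` of the `i`-th partner by `ω` to the
power `- x_i · u - y |u|`. Then `S = ⊕ S_n`, where `S_n` is the space of the invariants of `Γ` of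
multidegree `(n, …, n)`: the section ring of `X = Y / Γ` and of the sheaf `L` which comes
from `O(1, …, 1)`.

* `S_1 = 0`: an invariant monomial of multidegree `(1, …, 1)` has labels `(u_i, t_i)`, `u'_i` with
  `u_i = u'_i` and `(t_i) ∈ C` (as `C` is its own dual), and then the last weight is
  `∑ (t_i^2 - 1) = -1 ≠ 0`.
* For each element of `Γ` which does not act on a block as a scalar exactly one eigenvalue has
  more than 101 (or 117) variables in this block, and the product of these eigenvalues over the eight
  blocks is `1`. So the stabilisers of points of `Y` act trivially on the fibres of `O(1, …, 1)`, and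
  for all large `n` the elements of `S_n` have no common zero on `Y`.
* In each block the product of all the characters is trivial. So the canonical sheaf of `X` is
  `L^(-1)`. `S` is free over a polynomial subring (generated by the coefficients of a product of eight
  polynomials with general coefficients), and self-dual.

So `X` is moreover a Gorenstein Fano variety with canonical singularities, without anticanonical
sections.
-/

set_option autoImplicit false

namespace Pool.Agent.Results.MP_954e53_ag.NegativeAnswer

open MvPolynomial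

/-! ### Core and graded core -/

section core

variable {K : Type*} [Field K] {S : Type*} [CommRing S] [Algebra K S]

/-- `J` is a reduction of `I`: `J ⊆ I` and `J I^r = I^(r+1)` for some `r`. -/
def IsReduction (J I : Ideal S) : Prop := J ≤ I ∧ ∃ r : ℕ, J * I ^ r = I ^ (r + 1)

/-- The core of `I`: the intersection of all its reductions. -/
def core (I : Ideal S) : Ideal S := sInf {J | IsReduction J I}

/-- The graded core of `I`: the intersection of all its homogeneous reductions. -/
def gradedCore (𝒜 : ℕ → Submodule K S) [GradedAlgebra 𝒜] (I : Ideal S) : Ideal S :=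
  sInf {J | IsReduction J I ∧ J.IsHomogeneous 𝒜}

/-- `I_N`: the ideal generated by all homogeneous elements of degree at least `N`. -/
def tail (𝒜 : ℕ → Submodule K S) (N : ℕ) : Ideal S := Ideal.span {x | ∃ n, N ≤ n ∧ x ∈ 𝒜 n}

end core

/-! ### Section rings -/

section sections

variable {K : Type*} [Field K] {S : Type*} [CommRing S] [Algebra K S]

/-- `O(1)` is invertible on `X = Proj S`: every homogeneous prime `p` which does not contain all
elements of positive degree (a point of `X`) has `Sₙ ⊄ p` and `Sₙ₊₁ ⊄ p` for some `n` (so there is a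
unit of degree one at the point). -/
def IsInvertible (𝒜 : ℕ → Submodule K S) [GradedAlgebra 𝒜] : Prop :=
  ∀ p : Ideal S, p.IsPrime → p.IsHomogeneous 𝒜 → (∃ i > 0, ∃ x ∈ 𝒜 i, x ∉ p) →
    ∃ n, (∃ x ∈ 𝒜 n, x ∉ p) ∧ ∃ y ∈ 𝒜 (n + 1), y ∉ p

/-- `Sₙ = H⁰(X, O(n))`: every fraction `a / b` of degree `n` which is regular on `X = Proj S` (for
each homogeneous `x` of positive degree some `xᵐ a / b` lies in `S`) lies in `S`. -/
def IsSaturated (𝒜 : ℕ → Submodule K S) : Prop :=
  ∀ n j, ∀ a ∈ 𝒜 (j + n), ∀ b ∈ 𝒜 j, b ≠ 0 →
    (∀ i > 0, ∀ x ∈ 𝒜 i, ∃ m, b ∣ x ^ m * a) → b ∣ a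

/-- `S` is the section ring `⊕ H⁰(X, Lⁿ)` of an ample invertible sheaf `L` on a projective variety
`X` over the algebraically closed field `K`, in terms of `S`: `S` is a graded domain of finite type
with `S₀ = K`, `L = O(1)` is invertible on `X = Proj S`, and `Sₙ = H⁰(X, O(n))`. -/
structure IsSectionRing (𝒜 : ℕ → Submodule K S) [GradedAlgebra 𝒜] : Prop where
  isDomain : IsDomain S
  finiteType : Algebra.FiniteType K S
  zero : ∀ s ∈ 𝒜 0, ∃ c : K, algebraMap K S c = s
  invertible : IsInvertible 𝒜
  saturated : IsSaturated 𝒜

end sections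

/-! ### Gorenstein rings -/

section gorenstein

variable {K : Type*} [Field K] {S : Type*} [CommRing S] [Algebra K S]

/-- `S` is a free module with basis `b` over the polynomial ring `T = K[t_1..t_d]`, which acts
through `t_i ↦ θ_i`: every element of `S` is in exactly one way `∑ c_i(θ) b_i`. -/
def IsFreeBasis (K : Type*) [Field K] {S : Type*} [CommRing S] [Algebra K S] {d : ℕ}
    (θ : Fin d → S) {m : ℕ} (b : Fin m → S) : Prop :=
  ∀ x : S, ∃! c : Fin m → MvPolynomial (Fin d) K, x = ∑ i, aeval θ (c i) * b i

/-- `φ ∈ Hom_T(S, T)`, where `T = K[t_1..t_d]` acts on `S` through `t_i ↦ θ_i`. -/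
def IsLin {d : ℕ} (θ : Fin d → S) (φ : S → MvPolynomial (Fin d) K) : Prop :=
  (∀ x y, φ (x + y) = φ x + φ y) ∧ ∀ (p : MvPolynomial (Fin d) K) x, φ (aeval θ p * x) = p * φ x

/-- `S` is Gorenstein with `a`-invariant `-1`: there are homogeneous `θ_1..θ_d` of degree `q > 0`
such that `S` is a finite free module over `T = K[θ_1..θ_d]` (`S` is Cohen-Macaulay), with a basis of
homogeneous elements, and the canonical module `ω_S = Hom_T(S, T(-qd))` is `S(-1)`: the module
`Hom_T(S, T)` is free of rank one over `S`, with a generator `φ` which lowers degrees by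
`q d - 1`. -/
def IsGorenstein (𝒜 : ℕ → Submodule K S) : Prop :=
  ∃ (d q : ℕ) (θ : Fin d → S) (m : ℕ) (b : Fin m → S) (φ : S → MvPolynomial (Fin d) K),
    0 < q ∧ (∀ i, θ i ∈ 𝒜 q) ∧ (∀ i, ∃ n, b i ∈ 𝒜 n) ∧ IsFreeBasis K θ b ∧
    IsLin θ φ ∧ (∀ ψ, IsLin θ ψ → ∃! x, ∀ y, ψ y = φ (x * y)) ∧
    ∀ n, ∀ x ∈ 𝒜 n, φ x ≠ 0 → ∃ k, (φ x).IsHomogeneous k ∧ n + 1 = q * (k + d)

end gorenstein

/-! ### Rational singularities -/

section rational

/-- A form of degree `d` on `F / K`, given as a function `ω` of `d` derivations of `F` over `K`,
is regular on `V ⊆ F`: it is a finite sum of forms `v dx_1 ∧ ⋯ ∧ dx_d` with `v, x_1, …, x_d ∈ V`,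
where `(v dx_1 ∧ ⋯ ∧ dx_d) (D_1, …, D_d) = v det (D_i x_j)`. -/
def RegOn (K : Type*) [Field K] {F : Type*} [Field F] [Algebra K F] (V : Set F) {d : ℕ}
    (ω : (Fin d → Derivation K F F) → F) : Prop :=
  ∃ (m : ℕ) (v : Fin m → F) (x : Fin m → Fin d → F), (∀ k, v k ∈ V) ∧ (∀ k j, x k j ∈ V) ∧
    ∀ D : Fin d → Derivation K F F, ω D = ∑ k, v k * (Matrix.of fun i j => D i (x k j)).det

variable {S : Type*} [CommRing S] [IsDomain S]

/-- The local ring `S_p`, as a set of elements of the fraction field. -/
def localAt (p : Ideal S) : Set (FractionRing S) :=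
  {x | ∃ a s : S, s ∉ p ∧
    x * algebraMap S (FractionRing S) s = algebraMap S (FractionRing S) a}

/-- `S` has rational singularities, for a Cohen-Macaulay domain `S` of finite type over a field `K`
of characteristic `0`, in the form of Kempf's criterion (`f_* ω_Y = ω_S` for the resolutions
`f : Y → Spec S`): `S` is normal, and every rational differential form of degree `dim S` which is
regular on `S_p` for all primes `p` of height one (these forms are `ω_S`) is regular on every
discrete valuation ring `V` of `Frac S` which contains `S`, in particular at every prime divisor of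
`Y` (where `V` is the local ring of the divisor). -/
structure HasRationalSingularities (K : Type*) [Field K] (S : Type*) [CommRing S] [IsDomain S]
    [Algebra K S] : Prop where
  normal : IsIntegrallyClosed S
  kempf : ∀ d : ℕ, ringKrullDim S = d →
    ∀ ω : (Fin d → Derivation K (FractionRing S) (FractionRing S)) → FractionRing S,
    (∀ p : Ideal S, p.IsPrime → p.height = 1 → RegOn K (localAt p) ω) →
    ∀ V : ValuationSubring (FractionRing S), (∀ s : S, algebraMap S (FractionRing S) s ∈ V) →
      IsDiscreteValuationRing V → RegOn K (V : Set (FractionRing S)) ω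

end rational

universe u

/-- **A negative answer.**  Over every algebraically closed field `K` of characteristic `0` there is
a section ring `S` which is Gorenstein and has rational singularities, such that
`core I_N ≠ graded core I_N` for all large `N`. -/
theorem result (K : Type u) [Field K] [IsAlgClosed K] [CharZero K] :
    ∃ (S : Type u) (_ : CommRing S) (_ : IsDomain S) (_ : Algebra K S)
      (𝒜 : ℕ → Submodule K S) (_ : GradedAlgebra 𝒜),
      IsSectionRing 𝒜 ∧ IsGorenstein 𝒜 ∧ HasRationalSingularities K S ∧
      ringKrullDim S = 1745 ∧ 𝒜 1 = ⊥ ∧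
      ∃ N₀, ∀ N ≥ N₀, core (tail 𝒜 N) ≠ gradedCore 𝒜 (tail 𝒜 N) := by
  obtain ⟨S, i1, i2, i3, 𝒜, i4, h1, h2, h3, h4, h5, h6⟩ := Pool.Agent.T9h22.Fin.negative K
  exact ⟨S, i1, i2, i3, 𝒜, i4, ⟨h1.isDomain, h1.finiteType, h1.zero, h1.invertible, h1.saturated⟩,
    h2, ⟨h3.normal, h3.kempf⟩, h4, h5, h6⟩

end Pool.Agent.Results.MP_954e53_ag.NegativeAnswer
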