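import Pool.Agent.T9h74.Toric.Subst

/-!
# Sections of ample invertible sheaves on Fano complete intersections in toric varieties

Let `Y = Y₁ × ⋯ × Y_s` be a product of projective toric varieties of arbitrary Picard numbers and with
arbitrary singularities, given by their homogeneous coordinates: the variable `x` has the degree
`w x` in the product of the class groups `K l` (finitely generated abelian groups, possibly with
torsion), and `Y l` is the quotient of the set of the points which are semistable for `u l`. Let
`φ l : Y l → Z l` be the contraction given by a nef class `z l` which is not ample (for instance the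
map to a point, if `z l = 0` and `Y l` is not a point). Let `X` be given by equations `f j` of classes
`d j`, each component `d j l` of which is zero or a `φ l`-ample class on `Y l`, and assume that the
components of `∑ w - ∑ d` (the anticanonical class of `X`) are `φ l`-ample, and that the ample class `u`
is invertible on `X`: at every point of `X` sections of some consecutive multiples `m u` and
`(m + 1) u` do not vanish. Then some monomial of degree `u` does not vanish on `X`. So `S₁ ≠ 0` for the
section ring `S` of `X` and `u`.

Idea of the proof. On each factor there are a set `A` of variables with independent degrees and a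
linear form `lam` on the class group, zero on `z l` and on the degrees of the variables in `A`, such
that every point with nonzero coordinates in `A` and in one variable with `lam > 0` is semistable
(this is an extremal ray of the cone of curves contracted by `φ l`, with a torus-fixed point of the
image of its contraction; it is found by the simplex method). The part of `X` over the point is a
complete intersection of positive degrees `lam (d j)` in a weighted projective space with weights
`lam (w x)`, because the classes `d j` are relatively ample. An element of the stabiliser of the point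
in the torus which acts nontrivially on the fibre of `u` has no fixed points there. The resulting
inequalities between the numbers of fixed variables and fixed equations are averaged against
`1 - Re`.
-/

set_option autoImplicit false

namespace Pool.Agent.Results.MP_954e53_ag.ToricCompleteIntersections

open MvPolynomial Finset Pool.Agent.T9h74.Toric

variable {k : Type} [Field k] {s N c : ℕ} {K : Fin s → Type} [∀ l, AddCommGroup (K l)]

/-- a point `p` is semistable for `u`: some monomial whose degree is a positive multiple of `u` does
not vanish at `p` -/
def Semistable (w : Fin N → ∀ l, K l) (u : ∀ l, K l) (p : Fin N → k) : Prop :=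
  ∃ (m : ℕ) (n : Fin N → ℕ), 0 < m ∧ m • u = ∑ x, n x • w x ∧ ∀ x, n x ≠ 0 → p x ≠ 0

/-- The class `v` is ample on the factor `l`: for each set `A` of variables, a positive multiple of
`v` is the degree of a monomial in the variables in `A` if and only if this holds for `u l` (so `v`
and `u l` have the same semistable points). -/
def AmpleOn (w : Fin N → ∀ l, K l) (u : ∀ l, K l) (l : Fin s) (v : K l) : Prop :=
  ∀ A : Finset (Fin N), InCone (fun x => w x l) A v ↔ InCone (fun x => w x l) A (u l)

/-- The class `v` is ample on the factor `l` relative to the contraction given by the nef class `z l`: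
its sum with a multiple of `z l` is ample. -/
def AmpleOver (w : Fin N → ∀ l, K l) (u z : ∀ l, K l) (l : Fin s) (v : K l) : Prop :=
  ∃ M : ℕ, AmpleOn w u l (v + M • z l)

/-- The sheaf of the class `u` is invertible on `X = {f = 0}`: at every semistable point of `X` forms
of the degrees `m u` and `(m + 1) u`, for some `m`, do not vanish. This holds if the ring
`⨁ₙ (k[x]/(f))_{n u}` is the section ring of an ample invertible sheaf. -/
def SectionRing (w : Fin N → ∀ l, K l) (u : ∀ l, K l) (f : Fin c → MvPolynomial (Fin N) k) : Prop :=
  ∀ p : Fin N → k, (∀ j, eval p (f j) = 0) → Semistable w u p →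
    ∃ (m : ℕ) (a b : MvPolynomial (Fin N) k), IsWeightedHomogeneous w a (m • u) ∧
      IsWeightedHomogeneous w b ((m + 1) • u) ∧ eval p a ≠ 0 ∧ eval p b ≠ 0

section factor

variable {w : Fin N → ∀ l, K l} {u z : ∀ l, K l} {l : Fin s}

theorem lam_pos {A : Finset (Fin N)} {i₀ : Fin N} {lam : K l →+ ℤ}
    (hi₀ : 0 < lam (w i₀ l)) (hA : ∀ a ∈ A, lam (w a l) = 0) (hu : 0 < lam (u l))
    (hz : lam (z l) = 0)
    (hcone : InCone (fun x => w x l) (insert i₀ A) (u l)) {v : K l} (hv : AmpleOver w u z l v) :
    0 < lam v := by
  classical
  obtain ⟨M, hv⟩ := hv
  suffices hsuff : 0 < lam (v + M • z l) by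
    rwa [map_add, map_nsmul, hz, smul_zero, add_zero] at hsuff
  revert hv
  generalize v + M • z l = v
  intro hv
  obtain ⟨m, n, hm, hn, e⟩ := (hv _).2 hcone
  have h1 : (m : ℤ) * lam v = n i₀ * lam (w i₀ l) := by
    have h2 := congrArg lam e
    rw [map_nsmul, map_sum, Finset.sum_eq_single_of_mem i₀ (mem_univ _)] at h2
    · rw [map_nsmul] at h2
      simpa using h2
    · intro b _ hb
      rw [map_nsmul]
      by_cases hbA : b ∈ A
      · rw [hA b hbA, smul_zero]
      · rw [hn b (by rw [mem_insert]; tauto), zero_smul]
  by_contra hcon
  push Not at hcon
  have hm' : (0 : ℤ) < m := by exact_mod_cast hm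
  have h3 : (n i₀ : ℤ) = 0 := by
    by_contra h0
    have h4 : (0 : ℤ) < n i₀ := lt_of_le_of_ne (Int.natCast_nonneg _) (Ne.symm h0)
    have h5 : (0 : ℤ) < n i₀ * lam (w i₀ l) := mul_pos h4 hi₀
    have h6 : (m : ℤ) * lam v ≤ 0 := mul_nonpos_of_nonneg_of_nonpos hm'.le hcon
    linarith
  have h4 : n i₀ = 0 := by exact_mod_cast h3
  have h5 : InCone (fun x => w x l) A v := by
    refine ⟨m, n, hm, fun i hi => ?_, e⟩
    by_cases hii : i = i₀
    · rw [hii, h4]
    · exact hn i (by rw [mem_insert]; tauto)
  obtain ⟨m', n', hm'', hn', e'⟩ := (hv _).1 h5
  have h6 := congrArg lam e'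
  rw [map_nsmul, map_sum, Finset.sum_eq_zero] at h6
  · have h7 : (m' : ℤ) * lam (u l) = 0 := by simpa using h6
    have h8 : (0 : ℤ) < m' := by exact_mod_cast hm''
    have := mul_pos h8 hu
    linarith
  · intro b _
    rw [map_nsmul]
    by_cases hbA : b ∈ A
    · rw [hA b hbA, smul_zero]
    · rw [hn' b hbA, zero_smul]

open Classical in
/-- the monomial on one factor -/
theorem factor [IsAlgClosed k] [CharZero k] (hfac : ∀ x, ∃! l, w x l ≠ 0)
    (hgen : ∀ l, AddSubgroup.closure (Set.range fun x => w x l) = ⊤)
    (hproj : ∀ n : Fin N → ℕ, ∑ x, n x • w x = 0 → n = 0) (hu : InCone w univ u)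
    (f : Fin c → MvPolynomial (Fin N) k) (d : Fin c → ∀ l, K l)
    (hf : ∀ j, IsWeightedHomogeneous w (f j) (d j))
    (hz : ∀ l A, InCone (fun x => w x l) A (u l) → InCone (fun x => w x l) A (z l))
    (hz' : ∀ l, ¬ AmpleOn w u l (z l))
    (hd : ∀ j l, d j l = 0 ∨ AmpleOver w u z l (d j l))
    (hK : ∀ l, AmpleOver w u z l ((∑ x, w x - ∑ j, d j) l))
    (htorus : ∃ p : Fin N → k, (∀ x, p x ≠ 0) ∧ ∀ j, eval p (f j) = 0)
    (hS : SectionRing w u f) (l : Fin s) :
    ∃ n : Fin N → ℕ, (∀ x, w x l = 0 → n x = 0) ∧ ∑ x, n x • w x l = u l := by
  have hother : ∀ x, w x l ≠ 0 → ∀ l', l' ≠ l → w x l' = 0 := by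
    intro x hx l' hl'
    by_contra h
    obtain ⟨l0, -, h0⟩ := hfac x
    exact hl' ((h0 l' h).trans (h0 l hx).symm)
  have hproj' : ∀ n : Fin N → ℕ, ∑ x, n x • w x l = 0 → ∀ x, w x l ≠ 0 → n x = 0 := by
    intro n hn x hx
    have h1 := hproj (fun x => if w x l ≠ 0 then n x else 0) (by
      funext l'
      rw [Finset.sum_apply]
      by_cases hl' : l' = l
      · subst hl'
        refine (Finset.sum_congr rfl fun y _ => ?_).trans hn
        rw [Pi.smul_apply]
        split_ifs with h
        · rfl
        · push Not at h
          rw [h, smul_zero, smul_zero]
      · refine Finset.sum_eq_zero fun y _ => ?_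
        rw [Pi.smul_apply]
        split_ifs with h
        · rw [hother y h l' hl', smul_zero]
        · rw [zero_smul])
    have h2 := congrFun h1 x
    rwa [if_pos hx] at h2
  set wl : Fin N → K l := fun x => w x l with hwl
  have hu' : InCone wl univ (u l) := by
    obtain ⟨m, n, hm, -, e⟩ := hu
    refine ⟨m, n, hm, fun i hi => absurd (mem_univ i) hi, ?_⟩
    have h1 := congrFun e l
    rw [Finset.sum_apply] at h1
    exact h1
  obtain ⟨A, i₀, lam, hi₀A, hA, hlu, hli₀, hlz, hker, hall⟩ :=
    exists_edge (hgen l) (u l) (z l) hu' (hz l) (by
      have h1 := hz' l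
      unfold AmpleOn at h1
      push Not at h1
      obtain ⟨A, h2⟩ := h1
      rcases h2 with h2 | h2
      · exact ⟨A, h2⟩
      · exact absurd (hz l A h2.2) h2.1)
  have hcone₀ := (hall i₀ hli₀).2.1
  have hd0 : ∀ j, d j l ≠ 0 → 0 < lam (d j l) := fun j hj =>
    lam_pos hli₀ hA hlu hlz hcone₀ ((hd j l).resolve_left hj)
  have hKpos := lam_pos hli₀ hA hlu hlz hcone₀ (hK l)
  obtain ⟨p, hp0, hpf⟩ := htorus
  -- the averaged inequality
  obtain ⟨i, hi, humem⟩ := edge_good (k := k) (hgen l) (u l) A lam hA hlu hker
    (τ := {j // d j l ≠ 0}) (fun j => d j.1 l) (fun j => hd0 j.1 j.2) (by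
      intro t htA htu
      let B := {x // 0 < lam (w x l)}
      let y : Fin N → MvPolynomial B k := fun x =>
        if w x l = 0 then C (p x) else if h : 0 < lam (w x l) then X ⟨x, h⟩
          else if x ∈ A then 1 else 0
      let T : (∀ l, K l) →+ Additive kˣ := t.comp (Pi.evalAddMonoidHom K l)
      have hT : ∀ v, T v = t (v l) := fun v => rfl
      have hcount := Pool.Agent.TH144.NV.count_le (k := k) (σ := B) (τ := {j // d j l ≠ 0})
        (fun x => (lam (w x.1 l)).toNat) (fun j => (lam (d j.1 l)).toNat)
        (fun j => by have := hd0 j.1 j.2; omega) (fun j => aeval y (f j.1)) (by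
          intro j
          refine homogeneous_aeval (hf j.1) (lam.comp (Pi.evalAddMonoidHom K l)) _ y ?_
            (Int.toNat_of_nonneg (hd0 j.1 j.2).le)
          intro x
          show (if w x l = 0 then _ else _) = _ ∨ ∃ e : ℕ, (e : ℤ) = lam (w x l) ∧
            IsWeightedHomogeneous _ (if w x l = 0 then _ else _) e
          split_ifs with h1 h2 h3
          · exact Or.inr ⟨0, by rw [h1, map_zero]; rfl, isWeightedHomogeneous_C _ _⟩
          · refine Or.inr ⟨(lam (w x l)).toNat, Int.toNat_of_nonneg h2.le, ?_⟩
            exact isWeightedHomogeneous_X k _ (⟨x, h2⟩ : B)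
          · exact Or.inr ⟨0, by rw [hA x h3]; rfl, isWeightedHomogeneous_one _ _⟩
          · exact Or.inl rfl)
        (fun x => ((t (w x.1 l)).toMul : k)) (fun j => ((t (d j.1 l)).toMul : k)) (by
          intro j
          refine act_aeval (hf j.1) T _ y ?_
          intro x
          rw [hT]
          show (if w x l = 0 then _ else _) = _ ∨
            Pool.Agent.TH144.NV.act _ (if w x l = 0 then _ else _) = _ * (if w x l = 0 then _ else _)
          split_ifs with h1 h2 h3
          · right
            rw [h1, map_zero]
            unfold Pool.Agent.TH144.NV.act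
            rw [aeval_C]
            simp
          · right
            unfold Pool.Agent.TH144.NV.act
            rw [aeval_X]
          · right
            rw [htA x h3]
            simp
          · exact Or.inl rfl) 1 (by
          intro q hq hqf
          by_contra hq0
          obtain ⟨i₁, hi₁⟩ : ∃ i₁, q i₁ ≠ 0 := by
            by_contra hcon
            push Not at hcon
            exact hq0 (funext hcon)
          -- the point of the cone
          let P : Fin N → k := fun x => if w x l = 0 then p x else
            if h : 0 < lam (w x l) then q ⟨x, h⟩ else if x ∈ A then 1 else 0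
          have hPy : ∀ x, eval q (y x) = P x := by
            intro x
            show eval q (if w x l = 0 then _ else _) = if w x l = 0 then _ else _
            split_ifs <;> simp
          have hPe : ∀ g : MvPolynomial (Fin N) k, eval q (aeval y g) = eval P g := by
            intro g
            induction g using MvPolynomial.induction_on with
            | C a => simp
            | add a b ha hb => simp only [map_add, ha, hb]
            | mul_X a x ha => simp only [map_mul, ha, aeval_X, eval_X, hPy]
          have hPf : ∀ j, eval P (f j) = 0 := by
            intro j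
            by_cases hj : d j l = 0
            · rw [← hpf j, eval_eq', eval_eq']
              refine Finset.sum_congr rfl fun e he => ?_
              congr 1
              refine Finset.prod_congr rfl fun x _ => ?_
              by_cases hx : w x l = 0
              · show (if w x l = 0 then p x else _) ^ _ = _
                rw [if_pos hx]
              · have h1 := hf j (mem_support_iff.1 he)
                rw [Finsupp.weight_apply, Finsupp.sum_fintype _ _ (by simp)] at h1
                have h2 := congrFun h1 l
                rw [Finset.sum_apply, hj] at h2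
                rw [hproj' (fun x => e x) h2 x hx, pow_zero, pow_zero]
            · rw [← hPe]
              exact hqf ⟨j, hj⟩
          have hPs : Semistable w u P := by
            obtain ⟨m1, n1, hm1, hn1, e1⟩ := (hall i₁.1 i₁.2).2.1
            obtain ⟨m2, n2, hm2, -, e2⟩ := hu
            refine ⟨m1 * m2, fun x => if w x l ≠ 0 then m2 * n1 x else m1 * n2 x,
              Nat.mul_pos hm1 hm2, ?_, ?_⟩
            · funext l'
              rw [Pi.smul_apply, Finset.sum_apply]
              by_cases hl' : l' = l
              · subst hl'
                rw [mul_comm, mul_smul, e1, Finset.smul_sum]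
                refine Finset.sum_congr rfl fun x _ => ?_
                rw [Pi.smul_apply]
                dsimp only
                split_ifs with h
                · rw [mul_smul]
                · push Not at h
                  rw [h, smul_zero, smul_zero, smul_zero]
              · have h3 := congrFun e2 l'
                rw [Finset.sum_apply, Pi.smul_apply] at h3
                rw [mul_smul, h3, Finset.smul_sum]
                refine Finset.sum_congr rfl fun x _ => ?_
                rw [Pi.smul_apply, Pi.smul_apply]
                dsimp only
                split_ifs with h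
                · rw [hother x h l' hl', smul_zero, smul_zero, smul_zero]
                · rw [mul_smul]
            · intro x hx
              dsimp only at hx
              show (if w x l = 0 then p x else
                if h : 0 < lam (w x l) then q ⟨x, h⟩ else if x ∈ A then 1 else 0) ≠ 0
              split_ifs with h1 h2 h3
              · exact hp0 x
              · rw [if_pos h1] at hx
                have h4 : x ∈ insert i₁.1 A := by
                  by_contra h5
                  exact hx (by rw [hn1 x h5, mul_zero])
                rcases Finset.mem_insert.1 h4 with h5 | h5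
                · subst h5
                  exact hi₁
                · rw [hA x h5] at h2
                  exact absurd h2 (lt_irrefl _)
              · exact one_ne_zero
              · rw [if_pos h1] at hx
                exfalso
                apply hx
                rw [hn1 x, mul_zero]
                intro h4
                rcases Finset.mem_insert.1 h4 with h5 | h5
                · exact h2 (h5 ▸ i₁.2)
                · exact h3 h5
          obtain ⟨m, a, b, ha, hb, ha0, hb0⟩ := hS P hPf hPs
          have hfix : (fun x => ((T (w x)).toMul : k) * P x) = P := by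
            funext x
            rw [hT]
            show _ * (if w x l = 0 then p x else
                if h : 0 < lam (w x l) then q ⟨x, h⟩ else if x ∈ A then 1 else 0) =
                (if w x l = 0 then p x else
                if h : 0 < lam (w x l) then q ⟨x, h⟩ else if x ∈ A then 1 else 0)
            split_ifs with h1 h2 h3
            · rw [h1, map_zero]
              simp
            · have := hq ⟨x, h2⟩
              simpa using this
            · rw [htA x h3]
              simp
            · rw [mul_zero]
          have key : ∀ {r : ℕ} {a : MvPolynomial (Fin N) k},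
              IsWeightedHomogeneous w a (r • u) → eval P a ≠ 0 → r • t (u l) = 0 := by
            intro r a ha ha0
            have h1 := eval_char ha T P
            rw [hfix, hT, Pi.smul_apply, map_nsmul] at h1
            have h2 : (((r • t (u l)).toMul : kˣ) : k) = 1 :=
              mul_right_cancel₀ ha0 (by rw [one_mul]; exact h1.symm)
            have h3 : ((r • t (u l)).toMul : kˣ) = 1 := Units.ext h2
            exact h3
          have h1 := key ha ha0
          have h2 := key hb hb0
          rw [succ_nsmul, h1, zero_add] at h2
          exact htu h2)
      have e1 : (univ.filter fun x : B => ((t (w x.1 l)).toMul : k) = 1 ^ (lam (w x.1 l)).toNat) =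
          univ.filter fun x : B => t (wl x) = 0 := by
        refine Finset.filter_congr fun x _ => ?_
        rw [one_pow, Units.val_eq_one]
        exact Iff.rfl
      have e2 : (univ.filter fun j : {j // d j l ≠ 0} =>
          ((t (d j.1 l)).toMul : k) = 1 ^ (lam (d j.1 l)).toNat) =
          univ.filter fun j : {j // d j l ≠ 0} => t (d j.1 l) = 0 := by
        refine Finset.filter_congr fun x _ => ?_
        rw [one_pow, Units.val_eq_one]
        exact Iff.rfl
      rw [e1, e2] at hcount
      exact hcount) (by
      have h1 : ∑ j : {j // d j l ≠ 0}, lam (d j.1 l) = ∑ j, lam (d j l) := by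
        rw [← Finset.sum_subtype (univ.filter fun j => d j l ≠ 0) (by simp)
          (fun j => lam (d j l))]
        rw [Finset.sum_filter]
        refine Finset.sum_congr rfl fun j _ => ?_
        split_ifs with h
        · rfl
        · push Not at h
          rw [h, map_zero]
      rw [h1]
      rw [Pi.sub_apply, Finset.sum_apply, Finset.sum_apply, map_sub, map_sum, map_sum] at hKpos
      linarith)
  -- the monomial
  obtain ⟨-, ⟨m, n, hm, hn, e⟩, hind⟩ := hall i hi
  have himg : insert (wl i) (wl '' (A : Set (Fin N))) = wl '' ((insert i A : Finset (Fin N))) := by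
    rw [Finset.coe_insert, Set.image_insert_eq]
  obtain ⟨z, hz, hz2⟩ := mem_closure_image (s := insert i A) (by rw [← himg]; exact humem)
  have h1 : ∀ x, (m : ℤ) * z x = n x := by
    have h2 := hind (fun x => (m : ℤ) * z x - n x) (by
      intro j hj
      rw [hz j hj, hn j hj]
      simp) (by
      have h3 : ∑ x, ((m : ℤ) * z x - n x) • wl x = m • u l - ∑ x, n x • wl x := by
        rw [hz2, Finset.smul_sum, ← Finset.sum_sub_distrib]
        refine Finset.sum_congr rfl fun x _ => ?_
        rw [sub_smul, mul_smul, natCast_zsmul, natCast_zsmul]
      rw [show (∑ x, ((m : ℤ) * z x - n x) • w x l) = ∑ x, ((m : ℤ) * z x - n x) • wl x from rfl,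
        h3, e, sub_self])
    intro x
    have := congrFun h2 x
    rw [Pi.zero_apply] at this
    linarith
  have hz0 : ∀ x, 0 ≤ z x := by
    intro x
    by_contra hcon
    push Not at hcon
    have hm' : (0 : ℤ) < m := by exact_mod_cast hm
    have h2 := mul_neg_of_pos_of_neg hm' hcon
    rw [h1 x] at h2
    have := Int.natCast_nonneg (n x)
    linarith
  refine ⟨fun x => if w x l = 0 then 0 else (z x).toNat, fun x hx => if_pos hx, ?_⟩
  rw [hz2]
  refine Finset.sum_congr rfl fun x _ => ?_
  dsimp only
  split_ifs with h
  · rw [show wl x = 0 from h, smul_zero, zero_smul]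
  · rw [← natCast_zsmul, Int.toNat_of_nonneg (hz0 x)]

end factor

theorem result [IsAlgClosed k] [CharZero k] (w : Fin N → ∀ l, K l) (u z : ∀ l, K l)
    -- each variable belongs to one factor
    (hfac : ∀ x, ∃! l, w x l ≠ 0)
    -- the class group of a factor is generated by the degrees of its variables
    (hgen : ∀ l, AddSubgroup.closure (Set.range fun x => w x l) = ⊤)
    -- the factors are projective
    (hproj : ∀ n : Fin N → ℕ, ∑ x, n x • w x = 0 → n = 0)
    -- there are semistable points
    (hu : InCone w univ u)
    -- the classes `z l` are nef and not ample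
    (hz : ∀ l A, InCone (fun x => w x l) A (u l) → InCone (fun x => w x l) A (z l))
    (hz' : ∀ l, ¬ AmpleOn w u l (z l))
    -- the equations
    (f : Fin c → MvPolynomial (Fin N) k) (d : Fin c → ∀ l, K l)
    (hf : ∀ j, IsWeightedHomogeneous w (f j) (d j))
    (hd : ∀ j l, d j l = 0 ∨ AmpleOver w u z l (d j l))
    -- the anticanonical class is relatively ample
    (hK : ∀ l, AmpleOver w u z l ((∑ x, w x - ∑ j, d j) l))
    -- `X` meets the torus of the toric variety
    (htorus : ∃ p : Fin N → k, (∀ x, p x ≠ 0) ∧ ∀ j, eval p (f j) = 0)
    (hS : SectionRing w u f) :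
    ∃ n : Fin N →₀ ℕ, IsWeightedHomogeneous w (monomial n (1 : k)) u ∧
      ¬ IsNilpotent (Ideal.Quotient.mk (Ideal.span (Set.range f)) (monomial n (1 : k))) := by
  classical
  have h1 := factor hfac hgen hproj hu f d hf hz hz' hd hK htorus hS
  choose n hn hnu using h1
  refine ⟨Finsupp.equivFunOnFinite.symm fun x => ∑ l, n l x, ?_, ?_⟩
  · apply isWeightedHomogeneous_monomial
    rw [Finsupp.weight_apply, Finsupp.sum_fintype _ _ (by simp)]
    funext l
    rw [Finset.sum_apply, ← hnu l]
    refine Finset.sum_congr rfl fun x _ => ?_
    rw [Pi.smul_apply]
    show (∑ l, n l x) • w x l = _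
    by_cases hx : w x l = 0
    · rw [hx, smul_zero, smul_zero]
    · rw [Finset.sum_eq_single_of_mem l (mem_univ l)]
      intro l' _ hl'
      apply hn
      by_contra h
      obtain ⟨l0, -, h0⟩ := hfac x
      exact hl' ((h0 l' h).trans (h0 l hx).symm)
  · rintro ⟨r, hr⟩
    obtain ⟨p, hp0, hpf⟩ := htorus
    rw [← map_pow, Ideal.Quotient.eq_zero_iff_mem] at hr
    have h2 : Ideal.span (Set.range f) ≤ RingHom.ker (eval p) := by
      rw [Ideal.span_le]
      rintro _ ⟨j, rfl⟩
      exact (RingHom.mem_ker).2 (hpf j)
    have h3 := (RingHom.mem_ker).1 (h2 hr)
    rw [map_pow] at h3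
    have h5 : eval p (monomial (Finsupp.equivFunOnFinite.symm fun x => ∑ l, n l x) (1 : k)) ≠ 0 := by
      rw [eval_monomial, one_mul, Finsupp.prod_fintype _ _ (by simp)]
      exact Finset.prod_ne_zero_iff.2 fun x _ => pow_ne_zero _ (hp0 x)
    exact h5 (eq_zero_of_pow_eq_zero h3)

end Pool.Agent.Results.MP_954e53_ag.ToricCompleteIntersections
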