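import Pool.Agent.T9h74.Toric.Chars
import Pool.Agent.Results.MP_954e53_ag.PfaffianAndSymmetricFormats

/-!
# Sections of ample invertible sheaves on Fano varieties in determinantal formats over toric varieties

Let `Y` be a projective toric variety of arbitrary Picard number and with arbitrary singularities,
given by its homogeneous coordinates: the variables `x i` have the degrees `w i` in the class group
`K` (a finitely generated abelian group, possibly with torsion), and `Y` is the quotient of the set
of the points which are semistable for the ample class `u`. Let `φ` be the contraction given by a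
nef class `z` which is not ample (for instance the map to a point, if `z = 0`). Let `X` be given in
`Y` by finitely many conditions of the following kinds, which may be mixed, each of them imposed on
forms of `φ`-ample classes in place of the coordinates.

* `alternating`: an alternating matrix of any size `m` has rank at most `2s` (`2s < m`);
* `symmetric`: a symmetric matrix of odd size `m` has rank at most `2s` (`2s < m`);
* `generic`: a matrix of size `n` has rank at most `s` (`s < n`; one equation for `n = 1`);
* `spinor`: a form `x`, an alternating matrix `Y` of size 5 and a vector `z` of length 5 with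
  `x zᵢ = (-1)^i Pf_i(Y)` and `Y z = 0` (the cone over the spinor variety `OG(5, 10)` in `ℙ¹⁵`);
* `cayley`: matrices `A₀, A₁, A₂` of size 3 with `adj A_t = A_{t+1} A_{t+2}` (the cone over the Cayley
  plane in `ℙ²⁶`);
* `tensor`: a tensor of format `n × ⋯ × n` of rank at most one (`ℙ^{n-1} × ⋯ × ℙ^{n-1}`);
* `linear`: equations which vanish on given coordinate subspaces.

The entries of the alternating and the symmetric matrices have the degrees `e i + e j + t`, those of
the generic matrices `e i + f j`, and those of the tensors `a 1 i₁ + ⋯ + a m iₘ`, in `K`. Let `top`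
be the sum of the classes `(m - 1 - 2s) (∑ e + m t / 2)` for the alternating,
`(m + 1 - 2s) (∑ e + m t / 2)` for the symmetric and `(n - s) (∑ e + ∑ f)` for the generic matrices,
`(∑ degrees) / 2` for the spinor variety, `(∑ degrees + degree of the cubic form) / 2` for the Cayley
plane, `(n^(m-1) - 1) ∑ a` for the tensors of order `m`, and for the last kind the mean of the sums of
the degrees of the coordinates outside of the subspaces. In the first six cases, if the conditions
define the scheme `X` and it has the expected codimension, then `∑ w - top` is the anticanonical class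
of `X`. Assume that `∑ w - top` is `φ`-ample, and that `u` is invertible on `X`. Then some monomial of
degree `u` does not vanish on `X`. So `S₁ ≠ 0` for the section ring `S` of `X` and `u`.

Idea of the proof. By the simplex method one finds an extremal ray of the cone of curves contracted
by `φ` and a torus-fixed point of the image of its contraction. The part of `X` over the point is
given in a weighted projective space by conditions of the same kinds and of positive degrees, and the
stabiliser of the point acts on it; the classes and the characters are combined in the class group.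
The averaged inequality of `PfaffianAndSymmetricFormats` is applied to this part.
-/

set_option autoImplicit false

namespace Pool.Agent.Results.MP_954e53_ag.ToricFormats

open MvPolynomial Finset Pool.Agent.T9h74.Toric Pool.Agent.TH144.NV

section blocks

variable {k : Type} [Field k] {K : Type} [AddCommGroup K] {N : ℕ} (w : Fin N → K)

/-- An alternating matrix of size `m` whose entries above the diagonal are forms of the degrees
`e i + e j + t`. -/
structure Alternating where
  m : ℕ
  s : ℕ
  s_lt : 2 * s < m
  M : Matrix (Fin m) (Fin m) (MvPolynomial (Fin N) k)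
  e : Fin m → K
  t : K
  form : ∀ i j, i < j → IsWeightedHomogeneous w (M i j) (e i + e j + t)
  diag : ∀ i, M i i = 0
  alternating : ∀ i j, M j i = -M i j

/-- A symmetric matrix of odd size `m` whose entries are forms of the degrees `e i + e j + t`. -/
structure Symmetric where
  m : ℕ
  odd : Odd m
  s : ℕ
  s_lt : 2 * s < m
  M : Matrix (Fin m) (Fin m) (MvPolynomial (Fin N) k)
  e : Fin m → K
  t : K
  form : ∀ i j, IsWeightedHomogeneous w (M i j) (e i + e j + t)
  symmetric : ∀ i j, M j i = M i j

/-- A matrix of size `n` whose entries are forms of the degrees `e i + f j`. -/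
structure Generic where
  n : ℕ
  s : ℕ
  s_lt : s < n
  M : Matrix (Fin n) (Fin n) (MvPolynomial (Fin N) k)
  e : Fin n → K
  f : Fin n → K
  form : ∀ i j, IsWeightedHomogeneous w (M i j) (e i + f j)

/-- The Pfaffian of an alternating matrix of size 5 without the row and the column `i`. -/
def pf {R : Type} [CommRing R] (Y : Matrix (Fin 5) (Fin 5) R) (i : Fin 5) : R :=
  Y (i.succAbove 0) (i.succAbove 1) * Y (i.succAbove 2) (i.succAbove 3) -
    Y (i.succAbove 0) (i.succAbove 2) * Y (i.succAbove 1) (i.succAbove 3) +
    Y (i.succAbove 0) (i.succAbove 3) * Y (i.succAbove 1) (i.succAbove 2)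

/-- Forms in place of the coordinates `x, Y, z` of the cone over the spinor variety. The degrees
are such that the monomials of `x zᵢ - (-1)^i Pf_i(Y)` have the same degree. -/
structure Spinor where
  x : MvPolynomial (Fin N) k
  Y : Matrix (Fin 5) (Fin 5) (MvPolynomial (Fin N) k)
  z : Fin 5 → MvPolynomial (Fin N) k
  dx : K
  dy : Fin 5 → Fin 5 → K
  dz : Fin 5 → K
  form_x : IsWeightedHomogeneous w x dx
  form_Y : ∀ i j, i < j → IsWeightedHomogeneous w (Y i j) (dy i j)
  form_z : ∀ i, IsWeightedHomogeneous w (z i) (dz i)
  diag : ∀ i, Y i i = 0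
  alternating : ∀ i j, Y j i = -Y i j
  degrees : ∀ i : Fin 5,
    dx + dz i = dy (i.succAbove 0) (i.succAbove 1) + dy (i.succAbove 2) (i.succAbove 3) ∧
    dx + dz i = dy (i.succAbove 0) (i.succAbove 2) + dy (i.succAbove 1) (i.succAbove 3) ∧
    dx + dz i = dy (i.succAbove 0) (i.succAbove 3) + dy (i.succAbove 1) (i.succAbove 2)

/-- Forms in place of the coordinates of the cone over the Cayley plane: the entries of three
matrices of size 3. The degrees are such that all monomials of the cubic form
`∑ det A_t - tr (A₀ A₁ A₂)` have the degree `D`. -/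
structure Cayley where
  A : Fin 3 → Matrix (Fin 3) (Fin 3) (MvPolynomial (Fin N) k)
  d : Fin 3 → Fin 3 → Fin 3 → K
  D : K
  form : ∀ t i j, IsWeightedHomogeneous w (A t i j) (d t i j)
  degree_det : ∀ t i j, d t i j + d t (i + 1) (j + 1) + d t (i + 2) (j + 2) = D ∧
    d t i j + d t (i + 1) (j + 2) + d t (i + 2) (j + 1) = D
  degree_trace : ∀ t i j l, d t i j + d (t + 1) j l + d (t + 2) l i = D

/-- A tensor of order `m + 1` and size `n` whose entries are forms of the degrees
`a 0 i₀ + ⋯ + a m iₘ`. -/
structure Tensor where
  m : ℕ
  n : ℕ
  n_pos : 0 < n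
  M : (Fin (m + 1) → Fin n) → MvPolynomial (Fin N) k
  a : Fin (m + 1) → Fin n → K
  form : ∀ I, IsWeightedHomogeneous w (M I) (∑ j, a j (I j))

/-- Forms `y x` of the degrees `d x` in place of coordinates; equations `g` in the coordinates, which
are homogeneous for the degrees `d` and vanish on each of the `s` coordinate subspaces
`{p | p x = 0 for x ∉ F a}`. The class `top` is the mean of the sums of the degrees of the
coordinates outside of `F a`. -/
structure Linear where
  ι : Type
  fintype : Fintype ι
  deceq : DecidableEq ι
  y : ι → MvPolynomial (Fin N) k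
  d : ι → K
  form : ∀ x, IsWeightedHomogeneous w (y x) (d x)
  J : Type
  g : J → MvPolynomial ι k
  homogeneous : ∀ j, ∃ m, IsWeightedHomogeneous d (g j) m
  s : ℕ
  s_pos : 0 < s
  F : Fin s → Finset ι
  subspace : ∀ a j (p : ι → k), (∀ x, x ∉ F a → p x = 0) → eval p (g j) = 0
  top : K
  top_eq : s • top = ∑ a, ∑ x ∈ univ.filter (fun x => x ∉ F a), d x

/-- a condition of one of the seven kinds -/
inductive Block (k : Type) [Field k] {K : Type} [AddCommGroup K] {N : ℕ} (w : Fin N → K)
  | alternating (b : Alternating (k := k) w)
  | symmetric (b : Symmetric (k := k) w)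
  | generic (b : Generic (k := k) w)
  | spinor (b : Spinor (k := k) w)
  | cayley (b : Cayley (k := k) w)
  | tensor (b : Tensor (k := k) w)
  | linear (b : Linear (k := k) w)

variable {w}

/-- the degrees of all forms of the block have the property `P` -/
def Block.All (P : K → Prop) : Block k w → Prop
  | Block.alternating b => ∀ i j, i < j → P (b.e i + b.e j + b.t)
  | Block.symmetric b => ∀ i j, P (b.e i + b.e j + b.t)
  | Block.generic b => ∀ i j, P (b.e i + b.f j)
  | Block.spinor b => P b.dx ∧ (∀ i j, i < j → P (b.dy i j)) ∧ ∀ i, P (b.dz i)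
  | Block.cayley b => ∀ t i j, P (b.d t i j)
  | Block.tensor b => ∀ I : Fin (b.m + 1) → Fin b.n, P (∑ j, b.a j (I j))
  | Block.linear b => ∀ x, P (b.d x)

/-- twice the contribution of the block to `∑ w - (anticanonical class)` -/
def Block.top2 : Block k w → K
  | Block.alternating b => ((b.m : ℤ) - 1 - 2 * b.s) • (2 • ∑ i, b.e i + b.m • b.t)
  | Block.symmetric b => ((b.m : ℤ) + 1 - 2 * b.s) • (2 • ∑ i, b.e i + b.m • b.t)
  | Block.generic b => 2 • ((b.n : ℤ) - b.s) • (∑ i, b.e i + ∑ j, b.f j)
  | Block.spinor b => b.dx + ∑ i, ∑ j ∈ univ.filter (fun j => i < j), b.dy i j + ∑ i, b.dz i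
  | Block.cayley b => b.D + ∑ t, ∑ i, ∑ j, b.d t i j
  | Block.tensor b => (2 * ((b.n : ℤ) ^ b.m - 1)) • ∑ j, ∑ i, b.a j i
  | Block.linear b => 2 • b.top

/-- the condition at a point -/
def Block.Cond : Block k w → (Fin N → k) → Prop
  | Block.alternating b, p => (b.M.map (eval p)).rank ≤ 2 * b.s
  | Block.symmetric b, p => (b.M.map (eval p)).rank ≤ 2 * b.s
  | Block.generic b, p => (b.M.map (eval p)).rank ≤ b.s
  | Block.spinor b, p => (∀ i : Fin 5, eval p b.x * eval p (b.z i) =
      (-1) ^ (i : ℕ) * pf (b.Y.map (eval p)) i) ∧ ∀ i, ∑ j, eval p (b.Y i j) * eval p (b.z j) = 0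
  | Block.cayley b, p => ∀ t, ((b.A t).map (eval p)).adjugate =
      (b.A (t + 1)).map (eval p) * (b.A (t + 2)).map (eval p)
  | Block.tensor b, p => ∀ (I J : Fin (b.m + 1) → Fin b.n) (j : Fin (b.m + 1)),
      eval p (b.M I) * eval p (b.M J) =
        eval p (b.M (Function.update I j (J j))) * eval p (b.M (Function.update J j (I j)))
  | Block.linear b, p => ∀ j, eval (fun x => eval p (b.y x)) (b.g j) = 0

end blocks

variable {k : Type} [Field k] {K : Type} [AddCommGroup K] {N : ℕ}

/-- a point `p` is semistable for `u`: some monomial whose degree is a positive multiple of `u` does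
not vanish at `p` -/
def Semistable (w : Fin N → K) (u : K) (p : Fin N → k) : Prop :=
  ∃ (m : ℕ) (n : Fin N → ℕ), 0 < m ∧ m • u = ∑ x, n x • w x ∧ ∀ x, n x ≠ 0 → p x ≠ 0

/-- The class `v` is ample on `Y`: for each set `A` of variables, a positive multiple of `v` is the
degree of a monomial in the variables in `A` if and only if this holds for `u` (so `v` and `u` have
the same semistable points). -/
def Ample (w : Fin N → K) (u v : K) : Prop :=
  ∀ A : Finset (Fin N), InCone w A v ↔ InCone w A u

/-- The class `v` is ample relative to the contraction given by the nef class `z`: its sum with a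
multiple of `z` is ample. -/
def AmpleOver (w : Fin N → K) (u z v : K) : Prop := ∃ M : ℕ, Ample w u (v + M • z)

/-- The sheaf of the class `u` is invertible on `X = {F = 0}`: at every semistable point of `X` forms
of the degrees `m u` and `(m + 1) u`, for some `m`, do not vanish. This holds if the ring
`⨁ₙ (k[x]/(F))_{n u}` is the section ring of an ample invertible sheaf. -/
def SectionRing {J : Type} (w : Fin N → K) (u : K) (F : J → MvPolynomial (Fin N) k) : Prop :=
  ∀ p : Fin N → k, (∀ j, eval p (F j) = 0) → Semistable w u p →
    ∃ (m : ℕ) (a b : MvPolynomial (Fin N) k), IsWeightedHomogeneous w a (m • u) ∧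
      IsWeightedHomogeneous w b ((m + 1) • u) ∧ eval p a ≠ 0 ∧ eval p b ≠ 0

theorem lam_pos {w : Fin N → K} {u z : K} {A : Finset (Fin N)} {i₀ : Fin N} {lam : K →+ ℤ}
    (hi₀ : 0 < lam (w i₀)) (hA : ∀ a ∈ A, lam (w a) = 0) (hu : 0 < lam u) (hz : lam z = 0)
    (hcone : InCone w (insert i₀ A) u) {v : K} (hv : AmpleOver w u z v) : 0 < lam v := by
  classical
  obtain ⟨M, hv⟩ := hv
  suffices hsuff : 0 < lam (v + M • z) by
    rwa [map_add, map_nsmul, hz, smul_zero, add_zero] at hsuff
  revert hv
  generalize v + M • z = v
  intro hv
  obtain ⟨m, n, hm, hn, e⟩ := (hv _).2 hcone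
  have h1 : (m : ℤ) * lam v = n i₀ * lam (w i₀) := by
    have h2 := congrArg lam e
    rw [map_nsmul, map_sum, Finset.sum_eq_single_of_mem i₀ (mem_univ _)] at h2
    · rw [map_nsmul] at h2
      simpa using h2
    · intro b _ hb
      rw [map_nsmul]
      by_cases hbA : b ∈ A
      · rw [hA b hbA, smul_zero]
      · rw [hn b (by rw [mem_insert]; tauto), zero_smul]
  by_contra hcon
  push Not at hcon
  have hm' : (0 : ℤ) < m := by exact_mod_cast hm
  have h3 : (n i₀ : ℤ) = 0 := by
    by_contra h0
    have h4 : (0 : ℤ) < n i₀ := lt_of_le_of_ne (Int.natCast_nonneg _) (Ne.symm h0)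
    have h5 : (0 : ℤ) < n i₀ * lam (w i₀) := mul_pos h4 hi₀
    have h6 : (m : ℤ) * lam v ≤ 0 := mul_nonpos_of_nonneg_of_nonpos hm'.le hcon
    linarith
  have h4 : n i₀ = 0 := by exact_mod_cast h3
  have h5 : InCone w A v := by
    refine ⟨m, n, hm, fun i hi => ?_, e⟩
    by_cases hii : i = i₀
    · rw [hii, h4]
    · exact hn i (by rw [mem_insert]; tauto)
  obtain ⟨m', n', hm'', hn', e'⟩ := (hv _).1 h5
  have h6 := congrArg lam e'
  rw [map_nsmul, map_sum, Finset.sum_eq_zero] at h6
  · have h7 : (m' : ℤ) * lam u = 0 := by simpa using h6
    have h8 : (0 : ℤ) < m' := by exact_mod_cast hm''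
    have := mul_pos h8 hu
    linarith
  · intro b _
    rw [map_nsmul]
    by_cases hbA : b ∈ A
    · rw [hA b hbA, smul_zero]
    · rw [hn' b hbA, zero_smul]

theorem Block.All.mono {w : Fin N → K} {P Q : K → Prop} (h : ∀ v, P v → Q v) (b : Block k w)
    (hb : b.All P) : b.All Q := by
  cases b with
  | alternating b => exact fun i j hij => h _ (hb i j hij)
  | symmetric b => exact fun i j => h _ (hb i j)
  | generic b => exact fun i j => h _ (hb i j)
  | spinor b => exact ⟨h _ hb.1, fun i j hij => h _ (hb.2.1 i j hij), fun i => h _ (hb.2.2 i)⟩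
  | cayley b => exact fun t i j => h _ (hb t i j)
  | tensor b => exact fun I => h _ (hb I)
  | linear b => exact fun x => h _ (hb x)

open PfaffianAndSymmetricFormats in
/-- specialisation of a block to a fibre -/
theorem Block.exists_conv {w : Fin N → K} (b : Block k w) (lam : K →+ ℤ)
    (hb : b.All fun κ => 0 < lam κ) {n : ℕ} {w' : Fin n → ℕ} {G : Type} [Group G]
    {α : Fin n → G →* kˣ} (E : K → G →* kˣ) (hE : ∀ x y, E (x + y) = E x * E y)
    (θ : MvPolynomial (Fin N) k →ₐ[k] MvPolynomial (Fin n) k)
    (hθ : ∀ (F : MvPolynomial (Fin N) k) (κ : K), IsWeightedHomogeneous w F κ → 0 < lam κ →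
      Form w' α (θ F) (lam κ).toNat (E κ)) (q : (Fin n → k) → (Fin N → k))
    (hq : ∀ p F, eval p (θ F) = eval (q p) F) :
    ∃ b' : PfaffianAndSymmetricFormats.Block w' α, b'.top2 = lam b.top2 ∧
      ∀ p, b'.Cond p → b.Cond (q p) := by
  have hE0 : E 0 = 1 := by
    refine MonoidHom.ext fun g => ?_
    have h1 := congrArg (fun f : G →* kˣ => f g) (hE 0 0)
    simp only [add_zero, MonoidHom.mul_apply] at h1
    exact left_eq_mul.1 h1
  have hEsum : ∀ {ι : Type} (s : Finset ι) (f : ι → K), E (∑ i ∈ s, f i) = ∏ i ∈ s, E (f i) := by
    intro ι s f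
    classical
    induction s using Finset.induction_on with
    | empty => simpa using hE0
    | insert a s ha ih => rw [Finset.sum_insert ha, Finset.prod_insert ha, hE, ih]
  have hpos : ∀ {κ : K}, 0 < lam κ → (((lam κ).toNat : ℕ) : ℤ) = lam κ := fun h =>
    Int.toNat_of_nonneg h.le
  cases b with
  | alternating b =>
    refine ⟨.alternating
      { m := b.m
        s := b.s
        s_lt := b.s_lt
        M := b.M.map θ
        e := fun i => lam (b.e i)
        t := lam b.t
        ψ := fun i => E (b.e i)
        ω := E b.t
        d := fun i j => (lam (b.e i + b.e j + b.t)).toNat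
        degree := fun i j hij => by
          rw [hpos (hb i j hij), map_add, map_add]
        form := fun i j hij => by
          have h1 := hθ _ _ (b.form i j hij) (hb i j hij)
          rw [hE, hE] at h1
          exact h1
        diag := fun i => by rw [Matrix.map_apply, b.diag, map_zero]
        alternating := fun i j => by
          rw [Matrix.map_apply, Matrix.map_apply, b.alternating, map_neg] }, ?_, ?_⟩
    · simp only [PfaffianAndSymmetricFormats.Block.top2, Block.top2, map_zsmul, map_add, map_nsmul,
        map_sum, smul_eq_mul, nsmul_eq_mul]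
      push_cast
      ring
    · intro p hp
      have h1 : (b.M.map θ).map (eval p) = b.M.map (eval (q p)) := by
        ext i j
        simp only [Matrix.map_apply]
        exact hq p _
      show (b.M.map (eval (q p))).rank ≤ 2 * b.s
      rw [← h1]
      exact hp
  | symmetric b =>
    refine ⟨.symmetric
      { m := b.m
        odd := b.odd
        s := b.s
        s_lt := b.s_lt
        M := b.M.map θ
        e := fun i => lam (b.e i)
        t := lam b.t
        ψ := fun i => E (b.e i)
        ω := E b.t
        d := fun i j => (lam (b.e i + b.e j + b.t)).toNat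
        degree := fun i j => by
          rw [hpos (hb i j), map_add, map_add]
        form := fun i j => by
          have h1 := hθ _ _ (b.form i j) (hb i j)
          rw [hE, hE] at h1
          exact h1
        symmetric := fun i j => by
          rw [Matrix.map_apply, Matrix.map_apply, b.symmetric] }, ?_, ?_⟩
    · simp only [PfaffianAndSymmetricFormats.Block.top2, Block.top2, map_zsmul, map_add, map_nsmul,
        map_sum, smul_eq_mul, nsmul_eq_mul]
      push_cast
      ring
    · intro p hp
      have h1 : (b.M.map θ).map (eval p) = b.M.map (eval (q p)) := by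
        ext i j
        simp only [Matrix.map_apply]
        exact hq p _
      show (b.M.map (eval (q p))).rank ≤ 2 * b.s
      rw [← h1]
      exact hp
  | generic b =>
    refine ⟨.generic
      { n := b.n
        s := b.s
        s_lt := b.s_lt
        M := b.M.map θ
        e := fun i => lam (b.e i)
        f := fun i => lam (b.f i)
        ψ := fun i => E (b.e i)
        φ := fun i => E (b.f i)
        d := fun i j => (lam (b.e i + b.f j)).toNat
        degree := fun i j => by
          rw [hpos (hb i j), map_add]
        form := fun i j => by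
          have h1 := hθ _ _ (b.form i j) (hb i j)
          rw [hE] at h1
          exact h1 }, ?_, ?_⟩
    · simp only [PfaffianAndSymmetricFormats.Block.top2, Block.top2, map_zsmul, map_add, map_nsmul,
        map_sum, smul_eq_mul, nsmul_eq_mul]
      push_cast
      ring
    · intro p hp
      have h1 : (b.M.map θ).map (eval p) = b.M.map (eval (q p)) := by
        ext i j
        simp only [Matrix.map_apply]
        exact hq p _
      show (b.M.map (eval (q p))).rank ≤ b.s
      rw [← h1]
      exact hp
  | spinor b =>
    refine ⟨.spinor
      { x := θ b.x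
        Y := b.Y.map θ
        z := fun i => θ (b.z i)
        dx := (lam b.dx).toNat
        dy := fun i j => (lam (b.dy i j)).toNat
        dz := fun i => (lam (b.dz i)).toNat
        χx := E b.dx
        χy := fun i j => E (b.dy i j)
        χz := fun i => E (b.dz i)
        form_x := hθ _ _ b.form_x hb.1
        form_Y := fun i j hij => hθ _ _ (b.form_Y i j hij) (hb.2.1 i j hij)
        form_z := fun i => hθ _ _ (b.form_z i) (hb.2.2 i)
        diag := fun i => by rw [Matrix.map_apply, b.diag, map_zero]
        alternating := fun i j => by
          rw [Matrix.map_apply, Matrix.map_apply, b.alternating, map_neg]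
        degrees := fun i => by
          obtain ⟨h1, h2, h3⟩ := b.degrees i
          have e1 := congrArg lam h1
          have e2 := congrArg lam h2
          have e3 := congrArg lam h3
          simp only [map_add] at e1 e2 e3
          have hx := hb.1
          have hz := hb.2.2 i
          have hlt : ∀ a c : Fin 4, a < c → i.succAbove a < i.succAbove c := fun a c h =>
            (Fin.succAbove_lt_succAbove_iff).2 h
          have y1 := hb.2.1 _ _ (hlt 0 1 (by decide))
          have y2 := hb.2.1 _ _ (hlt 2 3 (by decide))
          have y3 := hb.2.1 _ _ (hlt 0 2 (by decide))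
          have y4 := hb.2.1 _ _ (hlt 1 3 (by decide))
          have y5 := hb.2.1 _ _ (hlt 0 3 (by decide))
          have y6 := hb.2.1 _ _ (hlt 1 2 (by decide))
          refine ⟨?_, ?_, ?_⟩ <;> omega
        characters := fun i => by
          obtain ⟨h1, h2, h3⟩ := b.degrees i
          rw [← hE, ← hE, ← hE, ← hE]
          exact ⟨by rw [h1], by rw [h2], by rw [h3]⟩ }, ?_, ?_⟩
    · have h1 : ∀ i, ∑ j ∈ univ.filter (fun j => i < j), (((lam (b.dy i j)).toNat : ℕ) : ℤ) =
          ∑ j ∈ univ.filter (fun j => i < j), lam (b.dy i j) := fun i =>
        Finset.sum_congr rfl fun j hj => hpos (hb.2.1 i j (mem_filter.1 hj).2)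
      have h2 : ∑ i, (((lam (b.dz i)).toNat : ℕ) : ℤ) = ∑ i, lam (b.dz i) :=
        Finset.sum_congr rfl fun i _ => hpos (hb.2.2 i)
      simp only [PfaffianAndSymmetricFormats.Block.top2, Block.top2, map_add, map_sum]
      rw [hpos hb.1, h2, Finset.sum_congr rfl fun i _ => h1 i]
    · intro p hp
      have h1 : (b.Y.map θ).map (eval p) = b.Y.map (eval (q p)) := by
        ext i j
        simp only [Matrix.map_apply]
        exact hq p _
      obtain ⟨h2, h3⟩ := hp
      refine ⟨fun i => ?_, fun i => ?_⟩
      · rw [← hq, ← hq, ← h1]
        exact h2 i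
      · have h4 := h3 i
        simp only [Matrix.map_apply, hq] at h4
        exact h4
  | cayley b =>
    refine ⟨.cayley
      { A := fun t => (b.A t).map θ
        d := fun t i j => (lam (b.d t i j)).toNat
        D := (lam b.D).toNat
        χ := fun t i j => E (b.d t i j)
        Ξ := E b.D
        form := fun t i j => hθ _ _ (b.form t i j) (hb t i j)
        degree_det := fun t i j => by
          have e1 := congrArg lam (b.degree_det t i j).1
          have e2 := congrArg lam (b.degree_det t i j).2
          simp only [map_add] at e1 e2
          have y1 := hb t i j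
          have y2 := hb t (i + 1) (j + 1)
          have y3 := hb t (i + 2) (j + 2)
          have y4 := hb t (i + 1) (j + 2)
          have y5 := hb t (i + 2) (j + 1)
          constructor <;> omega
        degree_trace := fun t i j l => by
          have e1 := congrArg lam (b.degree_trace t i j l)
          simp only [map_add] at e1
          have y1 := hb t i j
          have y2 := hb (t + 1) j l
          have y3 := hb (t + 2) l i
          omega
        character_det := fun t i j => by
          rw [← hE, ← hE, ← hE, ← hE, (b.degree_det t i j).1, (b.degree_det t i j).2]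
          exact ⟨rfl, rfl⟩
        character_trace := fun t i j l => by
          rw [← hE, ← hE, b.degree_trace t i j l] }, ?_, ?_⟩
    · have hD : 0 < lam b.D := by
        have e1 := congrArg lam (b.degree_det 0 0 0).1
        simp only [map_add] at e1
        have y1 := hb 0 0 0
        have y2 := hb 0 (0 + 1) (0 + 1)
        have y3 := hb 0 (0 + 2) (0 + 2)
        omega
      simp only [PfaffianAndSymmetricFormats.Block.top2, Block.top2, map_add, map_sum]
      rw [hpos hD]
      congr 1
      exact Finset.sum_congr rfl fun t _ => Finset.sum_congr rfl fun i _ =>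
        Finset.sum_congr rfl fun j _ => hpos (hb t i j)
    · intro p hp t
      have h1 : ∀ t, ((b.A t).map θ).map (eval p) = (b.A t).map (eval (q p)) := by
        intro t
        ext i j
        simp only [Matrix.map_apply]
        exact hq p _
      rw [← h1, ← h1, ← h1]
      exact hp t
  | tensor b =>
    refine ⟨.tensor
      { m := b.m
        n := b.n
        n_pos := b.n_pos
        M := fun I => θ (b.M I)
        a := fun j i => lam (b.a j i)
        ψ := fun j i => E (b.a j i)
        d := fun I => (lam (∑ j, b.a j (I j))).toNat
        degree := fun I => by rw [hpos (hb I), map_sum]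
        form := fun I => by
          have h1 := hθ _ _ (b.form I) (hb I)
          rw [hEsum] at h1
          exact h1 }, ?_, ?_⟩
    · simp [PfaffianAndSymmetricFormats.Block.top2, Block.top2, map_sum]
    · intro p hp I J j
      have h1 := hp I J j
      simp only [hq] at h1
      exact h1
  | linear b =>
    let _ := b.fintype
    let _ := b.deceq
    refine ⟨.linear
      { K := b.ι
        fintype := b.fintype
        deceq := b.deceq
        y := fun x => θ (b.y x)
        d := fun x => (lam (b.d x)).toNat
        χ := fun x => E (b.d x)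
        form := fun x => hθ _ _ (b.form x) (hb x)
        J := b.J
        g := b.g
        homogeneous := fun j => by
          obtain ⟨m, hm⟩ := b.homogeneous j
          by_cases h0 : b.g j = 0
          · exact ⟨0, by rw [h0]; exact isWeightedHomogeneous_zero _ _ _⟩
          obtain ⟨e, he⟩ := MvPolynomial.support_nonempty.2 h0
          have hdeg : ∀ e, coeff e (b.g j) ≠ 0 →
              ((Finsupp.weight (fun x => (lam (b.d x)).toNat) e : ℕ) : ℤ) = lam m := by
            intro e he
            have h1 := hm he
            rw [Finsupp.weight_apply, Finsupp.sum_fintype _ _ (by simp)] at h1 ⊢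
            rw [← h1, map_sum, Nat.cast_sum]
            refine Finset.sum_congr rfl fun x _ => ?_
            rw [map_nsmul]
            simp only [smul_eq_mul, nsmul_eq_mul, Nat.cast_mul]
            rw [hpos (hb x)]
          refine ⟨Finsupp.weight (fun x => (lam (b.d x)).toNat) e, fun e' he' => ?_⟩
          have h2 := hdeg e (mem_support_iff.1 he)
          have h3 := hdeg e' he'
          rw [← h2] at h3
          exact_mod_cast h3
        s := b.s
        s_pos := b.s_pos
        F := b.F
        subspace := b.subspace
        top := lam b.top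
        top_eq := by
          have h1 := congrArg lam b.top_eq
          rw [map_nsmul, map_sum] at h1
          rw [nsmul_eq_mul] at h1
          rw [h1]
          refine Finset.sum_congr rfl fun a _ => ?_
          rw [map_sum]
          exact Finset.sum_congr rfl fun x _ => (hpos (hb x)).symm }, ?_, ?_⟩
    · simp [PfaffianAndSymmetricFormats.Block.top2, Block.top2]
    · intro p hp j
      have h1 := hp j
      simp only [hq] at h1
      exact h1

theorem result [IsAlgClosed k] [CharZero k] (w : Fin N → K) (u z : K)
    -- the class group is generated by the degrees of the variables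
    (hgen : AddSubgroup.closure (Set.range w) = ⊤)
    -- there are semistable points
    (hu : InCone w univ u)
    -- the class `z` is nef and not ample
    (hz : ∀ A, InCone w A u → InCone w A z) (hz' : ¬ Ample w u z)
    -- the conditions, on forms of relatively ample classes
    {Λ : Type} [Fintype Λ] (block : Λ → Block k w)
    (hpos : ∀ b, (block b).All (AmpleOver w u z))
    -- twice the anticanonical class is relatively ample
    (hK : AmpleOver w u z (2 • ∑ x, w x - ∑ b, (block b).top2))
    -- the equations of `X`, which hold at all points at which the conditions hold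
    {J : Type} (F : J → MvPolynomial (Fin N) k) (δ : J → K)
    (hF : ∀ j, IsWeightedHomogeneous w (F j) (δ j))
    (hcond : ∀ p : Fin N → k, (∀ b, (block b).Cond p) → ∀ j, eval p (F j) = 0)
    -- `X` meets the torus of the toric variety
    (htorus : ∃ p : Fin N → k, (∀ x, p x ≠ 0) ∧ ∀ j, eval p (F j) = 0)
    (hS : SectionRing w u F) :
    ∃ n : Fin N →₀ ℕ, IsWeightedHomogeneous w (monomial n (1 : k)) u ∧
      ¬ IsNilpotent (Ideal.Quotient.mk (Ideal.span (Set.range F)) (monomial n (1 : k))) := by
  classical
  have _ := hF
  obtain ⟨A, i₀, lam, hi₀A, hA, hlu, hli₀, hlz, hker, hall⟩ :=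
    exists_edge hgen u z hu hz (by
      unfold Ample at hz'
      push Not at hz'
      obtain ⟨A, h2⟩ := hz'
      rcases h2 with h2 | h2
      · exact ⟨A, h2⟩
      · exact absurd (hz A h2.2) h2.1)
  have hcone₀ := (hall i₀ hli₀).2.1
  have hample : ∀ v, AmpleOver w u z v → 0 < lam v := fun v hv =>
    lam_pos hli₀ hA hlu hlz hcone₀ hv
  have hblock : ∀ b, (block b).All fun κ => 0 < lam κ := fun b =>
    Block.All.mono hample (block b) (hpos b)
  have hKpos := hample _ hK
  set S : AddSubgroup K := AddSubgroup.closure (insert u (w '' A)) with hSdef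
  have hfin : Finite (K ⧸ S) := quot_finite hgen S (torsion_of_pos hker hlu)
  let B := {x // 0 < lam (w x)}
  let n := Fintype.card B
  let eB : B ≃ Fin n := Fintype.equivFin B
  let w' : Fin n → ℕ := fun i => (lam (w (eB.symm i).1)).toNat
  let α : Fin n → GG k S →* kˣ := fun i => ev S (w (eB.symm i).1)
  let y : Fin N → MvPolynomial (Fin n) k := fun x =>
    if h : 0 < lam (w x) then X (eB ⟨x, h⟩) else if x ∈ A then 1 else 0
  let q : (Fin n → k) → (Fin N → k) := fun p x =>
    if h : 0 < lam (w x) then p (eB ⟨x, h⟩) else if x ∈ A then 1 else 0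
  have hq : ∀ p G, eval p (aeval y G) = eval (q p) G := by
    intro p G
    induction G using MvPolynomial.induction_on with
    | C a => simp
    | add a b ha hb => simp only [map_add, ha, hb]
    | mul_X a x ha =>
      simp only [map_mul, ha, aeval_X, eval_X]
      congr 1
      show eval p (if h : 0 < lam (w x) then _ else _) = if h : 0 < lam (w x) then _ else _
      split_ifs <;> simp
  have hθ : ∀ (G : MvPolynomial (Fin N) k) (κ : K), IsWeightedHomogeneous w G κ → 0 < lam κ →
      PfaffianAndSymmetricFormats.Form w' α (aeval y G) (lam κ).toNat (ev S κ) := by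
    intro G κ hG hκ
    refine ⟨by omega, ?_, fun g => ?_⟩
    · refine homogeneous_aeval hG lam w' y ?_ (Int.toNat_of_nonneg hκ.le)
      intro x
      show (if h : 0 < lam (w x) then _ else _) = _ ∨ ∃ e : ℕ, (e : ℤ) = lam (w x) ∧
        IsWeightedHomogeneous _ (if h : 0 < lam (w x) then _ else _) e
      split_ifs with h2 h3
      · refine Or.inr ⟨(lam (w x)).toNat, Int.toNat_of_nonneg h2.le, ?_⟩
        have h4 := isWeightedHomogeneous_X k w' (eB ⟨x, h2⟩)
        have h5 : w' (eB ⟨x, h2⟩) = (lam (w x)).toNat := by
          show (lam (w (eB.symm (eB ⟨x, h2⟩)).1)).toNat = _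
          rw [Equiv.symm_apply_apply]
        rwa [h5] at h4
      · exact Or.inr ⟨0, by rw [hA x h3]; rfl, isWeightedHomogeneous_one _ _⟩
      · exact Or.inl rfl
    · refine act_aeval hG (tg g) _ y ?_
      intro x
      show (if h : 0 < lam (w x) then _ else _) = _ ∨
        act _ (if h : 0 < lam (w x) then _ else _) = _ * (if h : 0 < lam (w x) then _ else _)
      split_ifs with h2 h3
      · right
        unfold act
        rw [aeval_X]
        congr 2
        show ((ev S (w (eB.symm (eB ⟨x, h2⟩)).1) g : kˣ) : k) = _
        rw [Equiv.symm_apply_apply]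
        rfl
      · right
        rw [tg_eq_zero g (AddSubgroup.subset_closure (Set.mem_insert_of_mem _
          (Set.mem_image_of_mem w h3)))]
        simp
      · exact Or.inl rfl
  have hconv := fun b => Block.exists_conv (w' := w') (α := α) (block b) lam (hblock b) (ev S)
    (ev_add S) (aeval y) hθ q hq
  choose b' hb'top hb'cond using hconv
  obtain ⟨p₀, hp₀, hp₀F⟩ := htorus
  have hmain := Pool.Agent.R837.FQ.total (k := k) w' (fun i => by
      have := (eB.symm i).2
      show 0 < (lam (w (eB.symm i).1)).toNat
      omega) α (lam u).toNat (fun b => (b' b).top2)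
    (fun b => (b' b).Cond) (fun b => (b' b).exists_bd.some) (by
      intro g μ hμ p hp hrk
      by_contra hp0
      obtain ⟨i₁, hi₁⟩ : ∃ i₁, p i₁ ≠ 0 := by
        by_contra hcon
        push Not at hcon
        exact hp0 (funext hcon)
      have hPF : ∀ j, eval (q p) (F j) = 0 := hcond _ fun b => hb'cond b p (hrk b)
      have hPs : Semistable w u (q p) := by
        obtain ⟨m1, n1, hm1, hn1, e1⟩ := (hall (eB.symm i₁).1 (eB.symm i₁).2).2.1
        refine ⟨m1, n1, hm1, e1, fun x hx => ?_⟩
        have h4 : x ∈ insert (eB.symm i₁).1 A := by
          by_contra h5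
          exact hx (hn1 x h5)
        show (if h : 0 < lam (w x) then p (eB ⟨x, h⟩) else if x ∈ A then 1 else 0) ≠ 0
        split_ifs with h2 h3
        · rcases Finset.mem_insert.1 h4 with h5 | h5
          · subst h5
            rw [show (⟨(eB.symm i₁).1, h2⟩ : B) = eB.symm i₁ from rfl, Equiv.apply_symm_apply]
            exact hi₁
          · rw [hA x h5] at h2
            exact absurd h2 (lt_irrefl _)
        · exact one_ne_zero
        · exfalso
          rcases Finset.mem_insert.1 h4 with h5 | h5
          · exact h2 (h5 ▸ (eB.symm i₁).2)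
          · exact h3 h5
      obtain ⟨m, a, b, ha, hb, ha0, hb0⟩ := hS (q p) hPF hPs
      have h1 := fix_trivial ha hb ha0 hb0 (tg g - mu lam μ) (by
        intro x hx
        by_cases h2 : 0 < lam (w x)
        · have h3 : q p x = p (eB ⟨x, h2⟩) := dif_pos h2
          rw [h3] at hx
          have h4 := hp _ hx
          rw [← ev_eq_pow g μ h2.le]
          have h5 : α (eB ⟨x, h2⟩) = ev S (w x) := by
            show ev S (w (eB.symm (eB ⟨x, h2⟩)).1) = _
            rw [Equiv.symm_apply_apply]
          have h6 : w' (eB ⟨x, h2⟩) = (lam (w x)).toNat := by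
            show (lam (w (eB.symm (eB ⟨x, h2⟩)).1)).toNat = _
            rw [Equiv.symm_apply_apply]
          rw [h5, h6] at h4
          exact h4
        · by_cases h3 : x ∈ A
          · rw [AddMonoidHom.sub_apply, tg_eq_zero g (AddSubgroup.subset_closure
              (Set.mem_insert_of_mem _ (Set.mem_image_of_mem w h3))), mu_apply, hA x h3,
              zpow_zero, ofMul_one, sub_zero]
          · exact absurd (by
              show (if h : 0 < lam (w x) then p (eB ⟨x, h⟩) else if x ∈ A then 1 else 0) = 0
              rw [dif_neg h2, if_neg h3]) hx)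
      rw [← ev_eq_pow g μ hlu.le] at h1
      apply hμ
      rw [← h1, ev_apply, tg_eq_zero g (AddSubgroup.subset_closure (Set.mem_insert _ _))]
      rfl)
    (univ.filter fun i => ¬ Good (lam u).toNat (w' i) (α i)) (fun i => by simp)
  -- some variable is good
  obtain ⟨i, hi⟩ : ∃ i, Good (lam u).toNat (w' i) (α i) := by
    by_contra hcon
    push Not at hcon
    rw [Finset.filter_true_of_mem (fun i _ => hcon i)] at hmain
    have h1 : ∑ i, (w' i : ℤ) = ∑ x : B, lam (w x.1) := by
      refine Fintype.sum_equiv eB.symm _ _ fun i => ?_
      exact Int.toNat_of_nonneg (eB.symm i).2.le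
    have h2 : ∑ x, lam (w x) ≤ ∑ x : B, lam (w x.1) := by
      rw [← Finset.sum_subtype (univ.filter fun i => 0 < lam (w i)) (by simp) (fun i => lam (w i))]
      rw [← Finset.sum_filter_add_sum_filter_not univ (fun i => 0 < lam (w i))]
      have : ∑ i ∈ univ.filter (fun i => ¬ 0 < lam (w i)), lam (w i) ≤ 0 :=
        Finset.sum_nonpos fun i hi => not_lt.1 (mem_filter.1 hi).2
      linarith
    rw [Finset.sum_congr rfl fun b _ => hb'top b, h1] at hmain
    rw [map_sub, map_nsmul, map_sum, map_sum, nsmul_eq_mul] at hKpos
    push_cast at hKpos
    linarith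
  have hx := (eB.symm i).2
  set x := (eB.symm i).1 with hxdef
  have hmem := good_mem (k := k) hgen hA hlu hker hx hi
  have himg : insert (w x) (w '' (A : Set (Fin N))) = w '' ((insert x A : Finset (Fin N))) := by
    rw [Finset.coe_insert, Set.image_insert_eq]
  rw [himg] at hmem
  obtain ⟨n', -, hn'⟩ := exists_monomial (hall x hx).2.1 (hall x hx).2.2 hmem
  refine ⟨Finsupp.equivFunOnFinite.symm n', ?_, ?_⟩
  · apply isWeightedHomogeneous_monomial
    rw [Finsupp.weight_apply, Finsupp.sum_fintype _ _ (by simp)]
    exact hn'.symm
  · rintro ⟨r, hr⟩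
    rw [← map_pow, Ideal.Quotient.eq_zero_iff_mem] at hr
    have h2 : Ideal.span (Set.range F) ≤ RingHom.ker (eval p₀) := by
      rw [Ideal.span_le]
      rintro _ ⟨j, rfl⟩
      exact (RingHom.mem_ker).2 (hp₀F j)
    have h3 := (RingHom.mem_ker).1 (h2 hr)
    rw [map_pow] at h3
    have h5 : eval p₀ (monomial (Finsupp.equivFunOnFinite.symm n') (1 : k)) ≠ 0 := by
      rw [eval_monomial, one_mul, Finsupp.prod_fintype _ _ (by simp)]
      exact Finset.prod_ne_zero_iff.2 fun x _ => pow_ne_zero _ (hp₀ x)
    exact h5 (eq_zero_of_pow_eq_zero h3)

end Pool.Agent.Results.MP_954e53_ag.ToricFormats
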