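import Mathlib

/-!
# Section rings without elements of degree one on quotients with trivial canonical class

`E` is the plane cubic `x³ + y³ + z³ = 0` over a field `K` of characteristic 0 with a primitive cube
root of unity `ω`. For a code `Γ ⊆ 𝔽₃^ι` the group `Γ × ℤ/3` acts on `E^ι`: the element `(c, e)`
multiplies the coordinates `(x_i, y_i, z_i)` by `(ω^{c_i}, ω^{-c_i}, ω^e)`. Let `k_i ∈ {1, 2}` and let
`S = ⨁ S_m` be the ring of the invariants of the multidegrees `(m k_i)_i` in the multihomogeneous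
coordinate ring of `E^ι`. Let `Γ` be its own orthogonal for the form `∑ k_i u_i v_i`. Then

* at each point of `E^ι` there are elements of `S_3` and of `S_4` which do not vanish, so that
  `𝒪(k)` descends to an ample invertible sheaf `L` on `X = E^ι / (Γ × ℤ/3)`, and `S_m = H⁰(X, L^m)`;
* an element `(c, e) ≠ 0` which fixes a point has `e ≠ 0`, and acts on the tangent space of `E^ι` at
  this point as the scalar `ω^e`. So `X` has finitely many singular points, quotients of a smooth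
  point by the scalars `μ_3`; they are terminal if `n = |ι| ≥ 4`, and Gorenstein if `3 ∣ n`; in this
  case the canonical sheaf of `X` is trivial;
* if all `k_i` are 1 and `3 ∤ n`, or if exactly one `k_i` is 2 and `3 ∣ n`, then `S_1 = 0`.

Such codes exist for `n = 4 m`, `k = (1, …, 1)` (sums of copies of the tetracode), and for
`n = 4 m + 2`, `k = (1, …, 1, 2)`. The smallest cases are `n = 4`, and `n = 6` with trivial canonical
sheaf.

Idea of the proof: a monomial of multidegree `(k_i)_i` which is invariant under `Γ` has weights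
`u_i = (weight in x) - (weight in y)` such that `(k_i u_i)` is in the orthogonal of `Γ`, hence in `Γ`,
hence `∑ k_i u_i² = 0`; but the number of factors `z`, the weight for `ℤ/3`, is determined by the
`u_i²` up to the contribution of the factor with `k_i = 2`.
-/

set_option autoImplicit false

namespace Pool.Agent.Results.MP_954e53_ag.TrivialCanonicalClass

open MvPolynomial Finset

noncomputable section

section defs

variable {K : Type} [Field K] {ι : Type} [Fintype ι]

/-- The equation `x³ + y³ + z³` of the plane cubic `E`, in the coordinates `(i, 0), (i, 1), (i, 2)` of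
the `i`-th plane. -/
def cubic (K : Type) [Field K] {ι : Type} (i : ι) : MvPolynomial (ι × Fin 3) K :=
  X (i, 0) ^ 3 + X (i, 1) ^ 3 + X (i, 2) ^ 3

/-- The multihomogeneous ideal of the product of the curves `E`, one for each `i`. -/
def I (K : Type) [Field K] (ι : Type) : Ideal (MvPolynomial (ι × Fin 3) K) :=
  Ideal.span (Set.range (cubic K (ι := ι)))

/-- `f` is multihomogeneous of multidegree `(m k_i)_i`. -/
def IsForm (k : ι → ℕ) (m : ℕ) (f : MvPolynomial (ι × Fin 3) K) : Prop :=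
  ∀ s ∈ f.support, ∀ i, s (i, 0) + s (i, 1) + s (i, 2) = m * k i

/-- The element `(c, e)` acts on the coordinates of the `i`-th plane with the weights `c_i`, `-c_i`,
`e`. -/
def wt (c : ι → ZMod 3) (e : ZMod 3) (v : ι × Fin 3) : ZMod 3 :=
  ![c v.1, -c v.1, e] v.2

/-- The action of `(c, e)` on polynomials: `(x_i, y_i, z_i) ↦ (ω^{c_i} x_i, ω^{-c_i} y_i, ω^e z_i)`. -/
def act (ω : K) (c : ι → ZMod 3) (e : ZMod 3) :
    MvPolynomial (ι × Fin 3) K →ₐ[K] MvPolynomial (ι × Fin 3) K :=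
  aeval fun v => C (ω ^ (wt c e v).val) * X v

/-- `f` represents an element of `S_m`: it is a form of multidegree `(m k_i)_i`, and its class
modulo the ideal is fixed by the group of the pairs `(c, e)`, `c` in the code. -/
def Inv (ω : K) (k : ι → ℕ) (Γ : Submodule (ZMod 3) (ι → ZMod 3)) (m : ℕ)
    (f : MvPolynomial (ι × Fin 3) K) : Prop :=
  IsForm k m f ∧ ∀ c ∈ Γ, ∀ e, act ω c e f - f ∈ I K ι

/-- `p` lies on the multicone over the product of the curves `E`. -/
def Cone (p : ι × Fin 3 → K) : Prop :=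
  ∀ i, p (i, 0) ^ 3 + p (i, 1) ^ 3 + p (i, 2) ^ 3 = 0 ∧ ∃ a, p (i, a) ≠ 0

/-- The point of the product of the curves `E` given by `p` is fixed by `(c, e)`; the element acts on
the line through the `i`-th component of `p` by `lam i`. -/
def Fixes (ω : K) (c : ι → ZMod 3) (e : ZMod 3) (p : ι × Fin 3 → K) (lam : ι → K) : Prop :=
  ∀ i a, ω ^ (wt c e (i, a)).val * p (i, a) = lam i * p (i, a)

/-- The code `Γ` is its own orthogonal for the form `∑ k_i u_i v_i`. -/
def SelfDual (k : ι → ℕ) (Γ : Submodule (ZMod 3) (ι → ZMod 3)) : Prop :=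
  ∀ v, v ∈ Γ ↔ ∀ c ∈ Γ, ∑ i, (k i : ZMod 3) * v i * c i = 0

end defs

section character

variable {K : Type} [Field K]

lemma psi_add {ω : K} (hω : ω ^ 3 = 1) (a b : ZMod 3) :
    ω ^ (a + b).val = ω ^ a.val * ω ^ b.val := by
  rw [← pow_add, ZMod.val_add]
  exact (pow_mod_eq hω _)
where
  pow_mod_eq {ω : K} (hω : ω ^ 3 = 1) (n : ℕ) : ω ^ (n % 3) = ω ^ n := by
    conv_rhs => rw [← Nat.div_add_mod n 3, pow_add, pow_mul, hω, one_pow, one_mul]

lemma psi_nsmul {ω : K} (hω : ω ^ 3 = 1) (a : ZMod 3) (n : ℕ) :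
    ω ^ ((n : ZMod 3) * a).val = (ω ^ a.val) ^ n := by
  induction n with
  | zero => simp
  | succ n ih =>
    rw [pow_succ, ← ih, ← psi_add hω]
    congr 2
    push_cast
    ring

lemma psi_sum {ω : K} (hω : ω ^ 3 = 1) {α : Type} (s : Finset α) (f : α → ZMod 3) :
    ω ^ (∑ i ∈ s, f i).val = ∏ i ∈ s, ω ^ (f i).val := by
  classical
  induction s using Finset.induction_on with
  | empty => simp
  | insert a s ha ih => rw [Finset.sum_insert ha, Finset.prod_insert ha, psi_add hω, ih]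

lemma psi_inj {ω : K} (hω : IsPrimitiveRoot ω 3) {a b : ZMod 3} (h : ω ^ a.val = ω ^ b.val) :
    a = b := by
  have h1 := hω.pow_inj (ZMod.val_lt a) (ZMod.val_lt b) h
  exact ZMod.val_injective 3 h1

end character

section monomials

variable {K : Type} [Field K] {ι : Type} [Fintype ι]

/-- The weight of the monomial with exponents `s` under `(c, e)`. -/
def chi (c : ι → ZMod 3) (e : ZMod 3) (s : ι × Fin 3 →₀ ℕ) : ZMod 3 :=
  ∑ v, (s v : ZMod 3) * wt c e v

lemma act_monomial {ω : K} (hω : ω ^ 3 = 1) (c : ι → ZMod 3) (e : ZMod 3) (s : ι × Fin 3 →₀ ℕ)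
    (a : K) : act ω c e (monomial s a) = C (ω ^ (chi c e s).val) * monomial s a := by
  rw [act, aeval_monomial, chi, psi_sum hω]
  simp only [psi_nsmul hω]
  rw [monomial_eq, Finsupp.prod_fintype _ _ (by simp), Finsupp.prod_fintype _ _ (by simp)]
  simp only [mul_pow, Finset.prod_mul_distrib, ← map_pow, ← map_prod, algebraMap_eq]
  ring

lemma coeff_act {ω : K} (hω : ω ^ 3 = 1) (c : ι → ZMod 3) (e : ZMod 3) (s : ι × Fin 3 →₀ ℕ)
    (f : MvPolynomial (ι × Fin 3) K) :
    coeff s (act ω c e f) = ω ^ (chi c e s).val * coeff s f := by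
  classical
  induction f using MvPolynomial.induction_on' with
  | monomial t a =>
    rw [act_monomial hω, coeff_C_mul, coeff_monomial]
    split_ifs with h
    · rw [h]
    · simp
  | add p q hp hq => rw [map_add, coeff_add, hp, hq, coeff_add]; ring

lemma chi_eq (c : ι → ZMod 3) (e : ZMod 3) (s : ι × Fin 3 →₀ ℕ) :
    chi c e s = ∑ i, ((s (i, 0) : ZMod 3) - s (i, 1)) * c i + (∑ i, (s (i, 2) : ZMod 3)) * e := by
  rw [chi, Fintype.sum_prod_type, Finset.sum_mul, ← Finset.sum_add_distrib]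
  refine Finset.sum_congr rfl fun i _ => ?_
  rw [Fin.sum_univ_three]
  simp [wt]
  ring

lemma chi_add (c c' : ι → ZMod 3) (e e' : ZMod 3) (s : ι × Fin 3 →₀ ℕ) :
    chi (c + c') (e + e') s = chi c e s + chi c' e' s := by
  simp only [chi_eq, Pi.add_apply, mul_add, Finset.sum_add_distrib]
  ring

/-- The sum of a nontrivial character over the group vanishes. -/
lemma sum_chi {ω : K} (hω : IsPrimitiveRoot ω 3) (Γ : Submodule (ZMod 3) (ι → ZMod 3)) [Fintype Γ]
    (s : ι × Fin 3 →₀ ℕ) (c₀ : ι → ZMod 3) (hc₀ : c₀ ∈ Γ) (e₀ : ZMod 3)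
    (h : chi c₀ e₀ s ≠ 0) :
    ∑ g : Γ × ZMod 3, ω ^ (chi (g.1 : ι → ZMod 3) g.2 s).val = 0 := by
  classical
  have h1 : ∑ g : Γ × ZMod 3, ω ^ (chi (g.1 : ι → ZMod 3) g.2 s).val
      = ω ^ (chi c₀ e₀ s).val * ∑ g : Γ × ZMod 3, ω ^ (chi (g.1 : ι → ZMod 3) g.2 s).val := by
    rw [Finset.mul_sum]
    rw [← Equiv.sum_comp (Equiv.addLeft ((⟨c₀, hc₀⟩, e₀) : Γ × ZMod 3))]
    refine Finset.sum_congr rfl fun g _ => ?_
    rw [← psi_add hω.pow_eq_one, ← chi_add]
    rfl
  have h2 : ω ^ (chi c₀ e₀ s).val ≠ 1 := by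
    intro h3
    apply h
    apply psi_inj hω
    rw [h3]
    simp
  have h3 : (1 - ω ^ (chi c₀ e₀ s).val)
      * ∑ g : Γ × ZMod 3, ω ^ (chi (g.1 : ι → ZMod 3) g.2 s).val = 0 := by
    rw [sub_mul, one_mul, ← h1, sub_self]
  rcases mul_eq_zero.1 h3 with h4 | h4
  · exact absurd (sub_eq_zero.1 h4).symm h2
  · exact h4

/-- If no monomial of the multidegree is invariant, then there are no sections. -/
lemma mem_of_noInv [CharZero K] {ω : K} (hω : IsPrimitiveRoot ω 3) {k : ι → ℕ}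
    {Γ : Submodule (ZMod 3) (ι → ZMod 3)} {m : ℕ}
    (hno : ∀ s : ι × Fin 3 →₀ ℕ, (∀ i, s (i, 0) + s (i, 1) + s (i, 2) = m * k i) →
      ∃ c ∈ Γ, ∃ e, chi c e s ≠ 0)
    {f : MvPolynomial (ι × Fin 3) K} (hf : Inv ω k Γ m f) : f ∈ I K ι := by
  classical
  have : Fintype Γ := Fintype.ofFinite _
  set N := Fintype.card (Γ × ZMod 3) with hN
  have hN0 : (N : K) ≠ 0 := by
    rw [Nat.cast_ne_zero, hN]
    exact Fintype.card_ne_zero
  have h1 : ∑ g : Γ × ZMod 3, act ω (g.1 : ι → ZMod 3) g.2 f = 0 := by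
    ext s
    rw [coeff_sum]
    simp only [coeff_act hω.pow_eq_one, coeff_zero]
    rw [← Finset.sum_mul]
    by_cases hs : s ∈ f.support
    · obtain ⟨c, hc, e, h⟩ := hno s (hf.1 s hs)
      rw [sum_chi hω Γ s c hc e h, zero_mul]
    · rw [notMem_support_iff.1 hs, mul_zero]
  have h2 : ∑ g : Γ × ZMod 3, (act ω (g.1 : ι → ZMod 3) g.2 f - f) ∈ I K ι :=
    Ideal.sum_mem _ fun g _ => hf.2 _ g.1.2 _
  rw [Finset.sum_sub_distrib, h1, zero_sub, Finset.sum_const, Finset.card_univ, ← hN,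
    neg_mem_iff, nsmul_eq_mul] at h2
  have h3 : f = C ((N : K)⁻¹) * ((N : MvPolynomial (ι × Fin 3) K) * f) := by
    rw [← mul_assoc, ← map_natCast (C : K →+* MvPolynomial (ι × Fin 3) K), ← map_mul,
      inv_mul_cancel₀ hN0, map_one, one_mul]
  rw [h3]
  exact Ideal.mul_mem_left _ _ h2

lemma one_block {a b c : ℕ} (h : a + b + c = 1) :
    (c : ZMod 3) = 1 - ((a : ZMod 3) - b) * ((a : ZMod 3) - b) := by
  have h1 : (a = 1 ∧ b = 0 ∧ c = 0) ∨ (a = 0 ∧ b = 1 ∧ c = 0) ∨ (a = 0 ∧ b = 0 ∧ c = 1) := by omega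
  rcases h1 with ⟨rfl, rfl, rfl⟩ | ⟨rfl, rfl, rfl⟩ | ⟨rfl, rfl, rfl⟩ <;> decide

lemma two_block {a b c : ℕ} (h : a + b + c = 2) :
    (c : ZMod 3) ≠ 1 + ((a : ZMod 3) - b) * ((a : ZMod 3) - b) := by
  have h1 : (a = 2 ∧ b = 0 ∧ c = 0) ∨ (a = 0 ∧ b = 2 ∧ c = 0) ∨ (a = 0 ∧ b = 0 ∧ c = 2) ∨
      (a = 1 ∧ b = 1 ∧ c = 0) ∨ (a = 1 ∧ b = 0 ∧ c = 1) ∨ (a = 0 ∧ b = 1 ∧ c = 1) := by omega
  rcases h1 with ⟨rfl, rfl, rfl⟩ | ⟨rfl, rfl, rfl⟩ | ⟨rfl, rfl, rfl⟩ | ⟨rfl, rfl, rfl⟩ |
    ⟨rfl, rfl, rfl⟩ | ⟨rfl, rfl, rfl⟩ <;> decide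

/-- If a monomial is invariant and the code is self-dual, then the weights `u_i` are isotropic. -/
lemma weights {k : ι → ℕ} {Γ : Submodule (ZMod 3) (ι → ZMod 3)} (hΓ : SelfDual k Γ)
    (hk : ∀ i, (k i : ZMod 3) * k i = 1) (s : ι × Fin 3 →₀ ℕ)
    (h : ∀ c ∈ Γ, ∀ e, chi c e s = 0) :
    (∑ i, (k i : ZMod 3) * (((s (i, 0) : ZMod 3) - s (i, 1)) * ((s (i, 0) : ZMod 3) - s (i, 1))) = 0)
      ∧ ∑ i, (s (i, 2) : ZMod 3) = 0 := by
  constructor
  · have h1 : (fun i => (k i : ZMod 3) * ((s (i, 0) : ZMod 3) - s (i, 1))) ∈ Γ := by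
      rw [hΓ]
      intro c hc
      have h2 := h c hc 0
      rw [chi_eq, mul_zero, add_zero] at h2
      rw [← h2]
      refine Finset.sum_congr rfl fun i _ => ?_
      rw [← mul_assoc, hk i, one_mul]
    have h3 := (hΓ _).1 h1 _ h1
    rw [← h3]
    refine Finset.sum_congr rfl fun i _ => ?_
    have := hk i
    linear_combination (-((k i : ZMod 3) * (((s (i, 0) : ZMod 3) - s (i, 1))
      * ((s (i, 0) : ZMod 3) - s (i, 1))))) * this
  · have h2 := h 0 Γ.zero_mem 1
    rw [chi_eq] at h2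
    simpa using h2

lemma noInv_one {k : ι → ℕ} {Γ : Submodule (ZMod 3) (ι → ZMod 3)} (hΓ : SelfDual k Γ)
    (hk : ∀ i, k i = 1) (hn : ¬ 3 ∣ Fintype.card ι) (s : ι × Fin 3 →₀ ℕ)
    (hs : ∀ i, s (i, 0) + s (i, 1) + s (i, 2) = 1 * k i) : ∃ c ∈ Γ, ∃ e, chi c e s ≠ 0 := by
  by_contra hcon
  push Not at hcon
  obtain ⟨h1, h2⟩ := weights hΓ (fun i => by rw [hk i]; decide) s hcon
  apply hn
  rw [← ZMod.natCast_eq_zero_iff]
  have h3 : ∀ i, (s (i, 2) : ZMod 3) = 1 - (k i : ZMod 3) * (((s (i, 0) : ZMod 3) - s (i, 1))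
      * ((s (i, 0) : ZMod 3) - s (i, 1))) := by
    intro i
    rw [hk i, Nat.cast_one, one_mul]
    exact one_block (by rw [hs i, hk i])
  rw [Finset.sum_congr rfl fun i _ => h3 i, Finset.sum_sub_distrib, h1, sub_zero] at h2
  simpa using h2

lemma noInv_two {k : ι → ℕ} {Γ : Submodule (ZMod 3) (ι → ZMod 3)} (hΓ : SelfDual k Γ)
    (j : ι) (hj : k j = 2) (hk : ∀ i, i ≠ j → k i = 1) (hn : 3 ∣ Fintype.card ι)
    (s : ι × Fin 3 →₀ ℕ)
    (hs : ∀ i, s (i, 0) + s (i, 1) + s (i, 2) = 1 * k i) : ∃ c ∈ Γ, ∃ e, chi c e s ≠ 0 := by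
  classical
  by_contra hcon
  push Not at hcon
  obtain ⟨h1, h2⟩ := weights hΓ (fun i => by
    by_cases h : i = j
    · rw [h, hj]; decide
    · rw [hk i h]; decide) s hcon
  apply two_block (a := s (j, 0)) (b := s (j, 1)) (c := s (j, 2)) (by rw [hs j, hj])
  have h3 : ∀ i ∈ univ.erase j, (s (i, 2) : ZMod 3) = 1 - (k i : ZMod 3)
      * (((s (i, 0) : ZMod 3) - s (i, 1)) * ((s (i, 0) : ZMod 3) - s (i, 1))) := by
    intro i hi
    have hi' := Finset.ne_of_mem_erase hi
    rw [hk i hi', Nat.cast_one, one_mul]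
    exact one_block (by rw [hs i, hk i hi'])
  rw [← Finset.add_sum_erase univ _ (mem_univ j)] at h1 h2
  rw [Finset.sum_congr rfl h3, Finset.sum_sub_distrib] at h2
  have h4 : (∑ i ∈ univ.erase j, (1 : ZMod 3)) = -1 := by
    have h5 := Finset.add_sum_erase univ (fun _ => (1 : ZMod 3)) (mem_univ j)
    have h6 : (∑ _i : ι, (1 : ZMod 3)) = 0 := by
      rw [Finset.sum_const, nsmul_eq_mul, Finset.card_univ, mul_one]
      exact (ZMod.natCast_eq_zero_iff _ _).2 hn
    rw [h6] at h5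
    linear_combination h5
  rw [h4] at h2
  rw [hj] at h1
  push_cast at h1
  have h7 : (3 : ZMod 3) = 0 := by decide
  linear_combination h2 + h1 - (((s (j, 0) : ZMod 3) - s (j, 1)) * ((s (j, 0) : ZMod 3) - s (j, 1))) * h7

end monomials

section invertible

variable {K : Type} [Field K] {ι : Type} [Fintype ι]

/-- The exponents `(a_i, b_i, c_i)` in the `i`-th block. -/
def expo (a b c : ι → ℕ) : ι × Fin 3 →₀ ℕ :=
  Finsupp.equivFunOnFinite.symm fun v => ![a v.1, b v.1, c v.1] v.2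

@[simp] lemma expo_zero (a b c : ι → ℕ) (i : ι) : expo a b c (i, 0) = a i := rfl
@[simp] lemma expo_one (a b c : ι → ℕ) (i : ι) : expo a b c (i, 1) = b i := rfl
@[simp] lemma expo_two (a b c : ι → ℕ) (i : ι) : expo a b c (i, 2) = c i := rfl

lemma inv_monomial {ω : K} (hω : ω ^ 3 = 1) {k : ι → ℕ} {Γ : Submodule (ZMod 3) (ι → ZMod 3)}
    {m : ℕ} {a b c : ι → ℕ} (hd : ∀ i, a i + b i + c i = m * k i)
    (hu : ∀ g ∈ Γ, ∑ i, ((a i : ZMod 3) - b i) * g i = 0) (hw : ∑ i, (c i : ZMod 3) = 0) :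
    Inv ω k Γ m (monomial (expo a b c) (1 : K)) := by
  classical
  constructor
  · intro s hs i
    have h1 : s = expo a b c := by
      by_contra h
      rw [mem_support_iff, coeff_monomial, if_neg (Ne.symm h)] at hs
      exact hs rfl
    rw [h1]
    exact hd i
  · intro g hg e
    have h1 : chi g e (expo a b c) = 0 := by
      rw [chi_eq]
      simp only [expo_zero, expo_one, expo_two]
      rw [hu g hg, hw, zero_mul, add_zero]
    rw [act_monomial hω, h1, ZMod.val_zero, pow_zero, map_one, one_mul, sub_self]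
    exact Ideal.zero_mem _

lemma eval_expo {p : ι × Fin 3 → K} {a b c : ι → ℕ} (ha : ∀ i, a i ≠ 0 → p (i, 0) ≠ 0)
    (hb : ∀ i, b i ≠ 0 → p (i, 1) ≠ 0) (hc : ∀ i, c i ≠ 0 → p (i, 2) ≠ 0) :
    eval p (monomial (expo a b c) (1 : K)) ≠ 0 := by
  classical
  rw [eval_monomial, one_mul, Finsupp.prod_fintype _ _ (by simp), Fintype.prod_prod_type]
  refine Finset.prod_ne_zero_iff.2 fun i _ => ?_
  rw [Fin.prod_univ_three]
  simp only [expo_zero, expo_one, expo_two]
  have key : ∀ (x : K) (n : ℕ), (n ≠ 0 → x ≠ 0) → x ^ n ≠ 0 := by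
    intro x n h
    by_cases hn : n = 0
    · rw [hn, pow_zero]; exact one_ne_zero
    · exact pow_ne_zero _ (h hn)
  exact mul_ne_zero (mul_ne_zero (key _ _ (ha i)) (key _ _ (hb i))) (key _ _ (hc i))

omit [Fintype ι] in
lemma cone_cases {p : ι × Fin 3 → K} (hp : Cone p) (i : ι) :
    (p (i, 0) = 0 → p (i, 1) ≠ 0 ∧ p (i, 2) ≠ 0) ∧ (p (i, 1) = 0 → p (i, 0) ≠ 0 ∧ p (i, 2) ≠ 0) ∧
      (p (i, 2) = 0 → p (i, 0) ≠ 0 ∧ p (i, 1) ≠ 0) := by
  obtain ⟨h1, a, ha⟩ := hp i
  have key : ∀ x y z : K, x ^ 3 + y ^ 3 + z ^ 3 = 0 → x = 0 → y = 0 → z = 0 := by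
    intro x y z h hx hy
    rw [hx, hy] at h
    simpa using h
  have hall : ¬ (p (i, 0) = 0 ∧ p (i, 1) = 0 ∧ p (i, 2) = 0) := by
    rintro ⟨h0, h1, h2⟩
    fin_cases a
    · exact ha h0
    · exact ha h1
    · exact ha h2
  refine ⟨fun h => ⟨fun h' => ?_, fun h' => ?_⟩, fun h => ⟨fun h' => ?_, fun h' => ?_⟩,
    fun h => ⟨fun h' => ?_, fun h' => ?_⟩⟩
  · exact hall ⟨h, h', key _ _ _ h1 h h'⟩
  · exact hall ⟨h, key _ _ _ (by linear_combination h1) h h', h'⟩
  · exact hall ⟨h', h, key _ _ _ h1 h' h⟩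
  · exact hall ⟨key _ _ _ (by linear_combination h1) h h', h, h'⟩
  · exact hall ⟨h', key _ _ _ (by linear_combination h1) h' h, h⟩
  · exact hall ⟨key _ _ _ (by linear_combination h1) h' h, h', h⟩

/-- The vector of the types of the components of a point: `1` if `x_i = 0`, `-1` if `y_i = 0`. -/
def typ (p : ι × Fin 3 → K) [∀ v, Decidable (p v = 0)] (i : ι) : ZMod 3 :=
  if p (i, 0) = 0 then 1 else if p (i, 1) = 0 then -1 else 0

/-- A word of the code with the prescribed product with the vector of types. -/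
lemma exists_word {k : ι → ℕ} {Γ : Submodule (ZMod 3) (ι → ZMod 3)} (hΓ : SelfDual k Γ)
    (ε : ι → ZMod 3) : ∃ v ∈ Γ, ∑ i, (k i : ZMod 3) * ε i * ε i + ∑ i, (k i : ZMod 3) * ε i * v i = 0 := by
  by_cases h : ε ∈ Γ
  · exact ⟨0, Γ.zero_mem, by rw [(hΓ ε).1 h ε h]; simp⟩
  · rw [hΓ] at h
    push Not at h
    obtain ⟨c, hc, hne⟩ := h
    refine ⟨(-(∑ i, (k i : ZMod 3) * ε i * ε i) / ∑ i, (k i : ZMod 3) * ε i * c i) • c,
      Γ.smul_mem _ hc, ?_⟩
    have h1 : ∑ i, (k i : ZMod 3) * ε i * ((-(∑ i, (k i : ZMod 3) * ε i * ε i)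
        / ∑ i, (k i : ZMod 3) * ε i * c i) • c) i
        = (-(∑ i, (k i : ZMod 3) * ε i * ε i) / ∑ i, (k i : ZMod 3) * ε i * c i)
          * ∑ i, (k i : ZMod 3) * ε i * c i := by
      rw [Finset.mul_sum]
      refine Finset.sum_congr rfl fun i _ => ?_
      rw [Pi.smul_apply, smul_eq_mul]
      ring
    rw [h1, div_mul_cancel₀ _ hne, add_neg_cancel]

/-- The sheaf is invertible on the quotient: at each point there are invariant forms of the
consecutive degrees 3 and 4. -/
lemma invertible {ω : K} (hω : ω ^ 3 = 1) {k : ι → ℕ} {Γ : Submodule (ZMod 3) (ι → ZMod 3)}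
    (hΓ : SelfDual k Γ) (hk : ∀ i, k i ≠ 0) {p : ι × Fin 3 → K} (hp : Cone p) :
    ∃ f g, Inv ω k Γ 3 f ∧ Inv ω k Γ 4 g ∧ eval p f ≠ 0 ∧ eval p g ≠ 0 := by
  classical
  have h30 : (3 : ZMod 3) = 0 := by decide
  obtain ⟨v, hv, hsum⟩ := exists_word hΓ (typ p)
  set ε := typ p with hε
  have hvΓ := (hΓ v).1 hv
  -- the weights in degree 4
  set u : ι → ZMod 3 := fun i => (k i : ZMod 3) * v i with hu
  set w : ι → ZMod 3 := fun i => (k i : ZMod 3) * ε i * ε i + ε i * u i with hw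
  have hwval : ∀ i, (w i).val ≤ 2 := fun i => Nat.lt_succ_iff.1 (ZMod.val_lt (w i))
  have hbval : ∀ i, (u i - (k i : ZMod 3)).val ≤ 2 := fun i => Nat.lt_succ_iff.1 (ZMod.val_lt (u i - (k i : ZMod 3)))
  have hk4 : ∀ i, 2 ≤ 4 * k i := fun i => by have := Nat.pos_of_ne_zero (hk i); omega
  refine ⟨monomial (expo (fun i => if p (i, 0) = 0 then 0 else 3 * k i)
      (fun i => if p (i, 0) = 0 then 3 * k i else 0) (fun _ => 0)) 1,
    monomial (expo (fun i => if p (i, 0) = 0 then 0 else if p (i, 1) = 0 then 4 * k i - (w i).val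
        else 4 * k i - (u i - (k i : ZMod 3)).val)
      (fun i => if p (i, 0) = 0 then 4 * k i - (w i).val else if p (i, 1) = 0 then 0
        else (u i - (k i : ZMod 3)).val)
      (fun i => if p (i, 0) = 0 then (w i).val else if p (i, 1) = 0 then (w i).val else 0)) 1,
    inv_monomial hω ?_ ?_ ?_, inv_monomial hω ?_ ?_ ?_, eval_expo ?_ ?_ ?_, eval_expo ?_ ?_ ?_⟩
  · intro i
    by_cases h : p (i, 0) = 0 <;> simp [h]
  · intro g hg
    refine Finset.sum_eq_zero fun i _ => ?_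
    by_cases h : p (i, 0) = 0 <;> simp [h, h30]
  · simp
  · intro i
    have h1 := hwval i
    have h2 := hbval i
    have h3 := hk4 i
    by_cases h : p (i, 0) = 0
    · simp only [h, if_true]
      omega
    · by_cases h' : p (i, 1) = 0
      · simp only [h, h', if_true, if_false]
        omega
      · simp only [h, h', if_false]
        omega
  · intro g hg
    have h0 : ∑ i, (k i : ZMod 3) * v i * g i = 0 := hvΓ g hg
    rw [← h0]
    refine Finset.sum_congr rfl fun i _ => ?_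
    congr 1
    have h1 := hwval i
    have h2 := hbval i
    have h3 := hk4 i
    by_cases h : p (i, 0) = 0
    · have he : ε i = 1 := by rw [hε, typ, if_pos h]
      simp only [h, if_true]
      rw [Nat.cast_sub (h1.trans h3)]
      simp only [ZMod.natCast_val, ZMod.cast_id', id, hw, he]
      push_cast
      linear_combination (-(k i : ZMod 3)) * h30
    · by_cases h' : p (i, 1) = 0
      · have he : ε i = -1 := by rw [hε, typ, if_neg h, if_pos h']
        simp only [h, h', if_true, if_false]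
        rw [Nat.cast_sub (h1.trans h3)]
        simp only [ZMod.natCast_val, ZMod.cast_id', id, hw, he]
        push_cast
        linear_combination (k i : ZMod 3) * h30
      · simp only [h, h', if_false]
        rw [Nat.cast_sub (h2.trans h3)]
        simp only [ZMod.natCast_val, ZMod.cast_id', id, hu]
        push_cast
        linear_combination (2 * (k i : ZMod 3) - k i * v i) * h30
  · have h0 : ∑ i, w i = 0 := by
      rw [← hsum, ← Finset.sum_add_distrib]
      refine Finset.sum_congr rfl fun i _ => ?_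
      simp only [hw, hu]
      ring
    rw [← h0]
    refine Finset.sum_congr rfl fun i _ => ?_
    by_cases h : p (i, 0) = 0
    · simp [h]
    · by_cases h' : p (i, 1) = 0
      · simp [h, h']
      · have he : ε i = 0 := by rw [hε, typ, if_neg h, if_neg h']
        simp [h, h', hw, he]
  · intro i hi h
    simp [h] at hi
  · intro i hi
    by_cases h : p (i, 0) = 0
    · exact ((cone_cases hp i).1 h).1
    · simp [h] at hi
  · intro i hi
    exact absurd rfl hi
  · intro i hi h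
    simp [h] at hi
  · intro i hi
    by_cases h : p (i, 0) = 0
    · exact ((cone_cases hp i).1 h).1
    · by_cases h' : p (i, 1) = 0
      · simp [h, h'] at hi
      · exact h'
  · intro i hi
    by_cases h : p (i, 0) = 0
    · exact ((cone_cases hp i).1 h).2
    · by_cases h' : p (i, 1) = 0
      · exact ((cone_cases hp i).2.1 h').2
      · simp [h, h'] at hi

end invertible

section fixedPoints

variable {K : Type} [Field K] {ι : Type}

/-- An element which fixes a point and acts trivially on the third coordinates is trivial. -/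
lemma free {ω : K} (hω : IsPrimitiveRoot ω 3) {c : ι → ZMod 3} {e : ZMod 3} {p : ι × Fin 3 → K}
    (hp : Cone p) {lam : ι → K} (hfix : Fixes ω c e p lam) (he : e = 0) : c = 0 := by
  funext i
  have h0 := hfix i 0
  have h1 := hfix i 1
  have h2 := hfix i 2
  simp only [wt, he, Matrix.cons_val_zero, Matrix.cons_val_one, Matrix.cons_val, ZMod.val_zero,
    pow_zero, one_mul] at h0 h1 h2
  obtain ⟨c0, c1, c2⟩ := cone_cases hp i
  have key : ∀ a : ZMod 3, a = -a → a = 0 := by decide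
  by_cases hz : p (i, 2) = 0
  · obtain ⟨hx, hy⟩ := c2 hz
    have e0 := mul_right_cancel₀ hx h0
    have e1 := mul_right_cancel₀ hy h1
    exact key _ (psi_inj hω (e0.trans e1.symm))
  · have hl : lam i = 1 := mul_right_cancel₀ hz (by rw [one_mul]; exact h2.symm)
    rw [hl] at h0 h1
    by_cases hx : p (i, 0) = 0
    · have e1 := mul_right_cancel₀ (c0 hx).1 h1
      have : -c i = 0 := psi_inj hω (by rw [e1]; simp)
      simpa using this
    · have e0 := mul_right_cancel₀ hx h0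
      exact psi_inj hω (by rw [e0]; simp)

lemma aux {y z s t l E : K} (hy : y ≠ 0) (h : s * z = t * y) :
    ∃ μ : K, l * s = l * E * s + μ * y ∧ l * t = l * E * t + μ * z := by
  refine ⟨(l - l * E) * s / y, ?_, ?_⟩
  · rw [div_mul_cancel₀ _ hy]
    ring
  · rw [div_mul_eq_mul_div, mul_assoc _ s, h, ← mul_assoc, mul_div_cancel_right₀ _ hy]
    ring

lemma aux' {y z s t : K} (hz : z ≠ 0) (h : y ^ 3 + z ^ 3 = 0) (h' : y ^ 2 * s + z ^ 2 * t = 0) :
    s * z = t * y := by
  have h5 : z ^ 2 * (s * z - t * y) = 0 := by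
    linear_combination s * h - y * h'
  rcases mul_eq_zero.1 h5 with h6 | h6
  · exact absurd (pow_eq_zero_iff two_ne_zero |>.1 h6) hz
  · exact sub_eq_zero.1 h6

/-- At a fixed point, `(c, e)` acts on the tangent line of each of the curves by `ω^e`. -/
lemma tangent {ω : K} (hω : IsPrimitiveRoot ω 3) {c : ι → ZMod 3} {e : ZMod 3}
    {p : ι × Fin 3 → K} (hp : Cone p) {lam : ι → K} (hfix : Fixes ω c e p lam) (i : ι)
    (t : Fin 3 → K) (ht : p (i, 0) ^ 2 * t 0 + p (i, 1) ^ 2 * t 1 + p (i, 2) ^ 2 * t 2 = 0) :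
    ∃ μ : K, ∀ a, ω ^ (wt c e (i, a)).val * t a = lam i * ω ^ e.val * t a + μ * p (i, a) := by
  have h3 := hω.pow_eq_one
  have h0 := hfix i 0
  have h1 := hfix i 1
  have h2 := hfix i 2
  have heq := (hp i).1
  simp only [wt, Matrix.cons_val_zero, Matrix.cons_val_one, Matrix.cons_val] at h0 h1 h2
  obtain ⟨c0, c1, c2⟩ := cone_cases hp i
  have key : ∀ a : ZMod 3, a = -a → a = 0 := by decide
  have dbl : ∀ a : ZMod 3, -a = a + a := by decide
  have hgoal : (∃ μ : K, ω ^ (c i).val * t 0 = lam i * ω ^ e.val * t 0 + μ * p (i, 0) ∧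
      ω ^ (-c i).val * t 1 = lam i * ω ^ e.val * t 1 + μ * p (i, 1) ∧
      ω ^ e.val * t 2 = lam i * ω ^ e.val * t 2 + μ * p (i, 2)) →
      ∃ μ : K, ∀ a, ω ^ (wt c e (i, a)).val * t a = lam i * ω ^ e.val * t a + μ * p (i, a) := by
    rintro ⟨μ, g0, g1, g2⟩
    refine ⟨μ, fun a => ?_⟩
    fin_cases a
    · exact g0
    · exact g1
    · exact g2
  apply hgoal
  by_cases hx : p (i, 0) = 0
  · obtain ⟨hy, hz⟩ := c0 hx
    have e1 := mul_right_cancel₀ hy h1
    have e2 := mul_right_cancel₀ hz h2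
    have hce : c i = -e := by rw [← psi_inj hω (e1.trans e2.symm), neg_neg]
    rw [hx] at heq ht
    obtain ⟨μ, g1, g2⟩ := aux (l := lam i) (E := ω ^ e.val) hy
      (aux' hz (s := t 1) (t := t 2) (by linear_combination heq) (by linear_combination ht))
    refine ⟨μ, ?_, ?_, ?_⟩
    · rw [hx, mul_zero, add_zero, hce, dbl, psi_add h3, ← e2]
    · rw [e1]; exact g1
    · rw [e2] at g2 ⊢; exact g2
  · by_cases hy : p (i, 1) = 0
    · obtain ⟨_, hz⟩ := c1 hy
      have e0 := mul_right_cancel₀ hx h0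
      have e2 := mul_right_cancel₀ hz h2
      have hce : c i = e := psi_inj hω (e0.trans e2.symm)
      rw [hy] at heq ht
      obtain ⟨μ, g1, g2⟩ := aux (l := lam i) (E := ω ^ e.val) hx
        (aux' hz (s := t 0) (t := t 2) (by linear_combination heq) (by linear_combination ht))
      refine ⟨μ, ?_, ?_, ?_⟩
      · rw [e0]; exact g1
      · rw [hy, mul_zero, add_zero, hce, dbl, psi_add h3, ← e2]
      · rw [e2] at g2 ⊢; exact g2
    · have e0 := mul_right_cancel₀ hx h0
      have e1 := mul_right_cancel₀ hy h1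
      have hc : c i = 0 := key _ (psi_inj hω (e0.trans e1.symm))
      have hl : lam i = 1 := by rw [← e0, hc]; simp
      by_cases hz : p (i, 2) = 0
      · rw [hz] at heq ht
        obtain ⟨μ, g1, g2⟩ := aux (l := lam i) (E := ω ^ e.val) hx
          (aux' hy (s := t 0) (t := t 1) (by linear_combination heq) (by linear_combination ht))
        refine ⟨μ, ?_, ?_, ?_⟩
        · rw [e0]; exact g1
        · rw [e1]; exact g2
        · rw [hz, hl]; ring
      · have e2 := mul_right_cancel₀ hz h2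
        have he : e = 0 := psi_inj hω (by rw [e2, hl]; simp)
        refine ⟨0, ?_, ?_, ?_⟩
        · rw [hc, he, hl]; simp
        · rw [hc, he, hl]; simp
        · rw [he, hl]; simp

end fixedPoints

section codes

/-- The words of length 4 of the tetracode. -/
def Tetra (v : Fin 4 → ZMod 3) : Prop := v 0 + v 1 + v 2 = 0 ∧ v 1 + 2 * v 2 + v 3 = 0

lemma tetra_orth {v c : Fin 4 → ZMod 3} (hv : Tetra v) (hc : Tetra c) : ∑ i, v i * c i = 0 := by
  have h3 : (3 : ZMod 3) = 0 := by decide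
  rw [Fin.sum_univ_four]
  obtain ⟨h1, h2⟩ := hv
  obtain ⟨h4, h5⟩ := hc
  linear_combination c 0 * h1 - (v 1 + v 2) * h4 + c 3 * h2 - (v 1 + 2 * v 2) * h5
    + (v 1 * c 1 + v 1 * c 2 + v 2 * c 1 + 2 * (v 2 * c 2)) * h3

/-- The sum of `m` copies of the tetracode. -/
def tetraPow (m : ℕ) : Submodule (ZMod 3) (Fin m × Fin 4 → ZMod 3) where
  carrier := {v | ∀ a, Tetra fun b => v (a, b)}
  add_mem' := by
    intro v w hv hw a
    obtain ⟨h1, h2⟩ := hv a
    obtain ⟨h3, h4⟩ := hw a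
    constructor
    · simp only [Pi.add_apply]
      linear_combination h1 + h3
    · simp only [Pi.add_apply]
      linear_combination h2 + h4
  zero_mem' := by
    intro a
    constructor <;> simp
  smul_mem' := by
    intro t v hv a
    obtain ⟨h1, h2⟩ := hv a
    constructor
    · simp only [Pi.smul_apply, smul_eq_mul]
      linear_combination t * h1
    · simp only [Pi.smul_apply, smul_eq_mul]
      linear_combination t * h2

/-- The sum of `m` copies of the tetracode and of the repetition code of length 2. -/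
def tetraPowPair (m : ℕ) : Submodule (ZMod 3) (Fin m × Fin 4 ⊕ Fin 2 → ZMod 3) where
  carrier := {v | (fun a => v (Sum.inl a)) ∈ tetraPow m ∧ v (Sum.inr 0) = v (Sum.inr 1)}
  add_mem' := by
    rintro v w ⟨h1, h2⟩ ⟨h3, h4⟩
    exact ⟨(tetraPow m).add_mem h1 h3, by simp only [Pi.add_apply, h2, h4]⟩
  zero_mem' := ⟨(tetraPow m).zero_mem, rfl⟩
  smul_mem' := by
    rintro t v ⟨h1, h2⟩
    exact ⟨(tetraPow m).smul_mem t h1, by simp only [Pi.smul_apply, h2]⟩

lemma tetra_words : Tetra ![1, 1, 1, 0] ∧ Tetra ![0, 1, 2, 1] := by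
  unfold Tetra
  decide

/-- The word which is `g` in the block `a` and zero elsewhere. -/
def blockWord {m : ℕ} (a : Fin m) (g : Fin 4 → ZMod 3) (x : Fin m × Fin 4) : ZMod 3 :=
  if x.1 = a then g x.2 else 0

lemma blockWord_mem {m : ℕ} (a : Fin m) {g : Fin 4 → ZMod 3} (hg : Tetra g) :
    blockWord a g ∈ tetraPow m := by
  intro a'
  by_cases h : a' = a
  · simpa [blockWord, h] using hg
  · simp [blockWord, h, Tetra]

lemma sum_blockWord {m : ℕ} (a : Fin m) (g : Fin 4 → ZMod 3) (v : Fin m × Fin 4 → ZMod 3) :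
    ∑ x, v x * blockWord a g x = ∑ b, v (a, b) * g b := by
  rw [Fintype.sum_prod_type, Finset.sum_eq_single a]
  · simp [blockWord]
  · intro a' _ h
    simp [blockWord, h]
  · simp

lemma mem_tetraPow {m : ℕ} (v : Fin m × Fin 4 → ZMod 3) :
    v ∈ tetraPow m ↔ ∀ c ∈ tetraPow m, ∑ x, v x * c x = 0 := by
  constructor
  · intro hv c hc
    rw [Fintype.sum_prod_type]
    exact Finset.sum_eq_zero fun a _ => tetra_orth (hv a) (hc a)
  · intro h a
    have h1 := h _ (blockWord_mem a tetra_words.1)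
    have h2 := h _ (blockWord_mem a tetra_words.2)
    rw [sum_blockWord, Fin.sum_univ_four] at h1 h2
    simp only [Matrix.cons_val_zero, Matrix.cons_val_one, Matrix.cons_val, mul_one, mul_zero,
      add_zero, zero_add] at h1 h2
    exact ⟨h1, by linear_combination h2⟩

lemma selfDual_tetraPow (m : ℕ) : SelfDual (fun _ => 1) (tetraPow m) := by
  intro v
  rw [mem_tetraPow]
  simp

lemma selfDual_tetraPowPair (m : ℕ) :
    SelfDual (Sum.elim (fun _ => 1) ![1, 2]) (tetraPowPair m) := by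
  have h3 : (3 : ZMod 3) = 0 := by decide
  intro v
  constructor
  · rintro ⟨hv1, hv2⟩ c ⟨hc1, hc2⟩
    rw [Fintype.sum_sum_type, Fin.sum_univ_two]
    have h1 := (mem_tetraPow _).1 hv1 _ hc1
    simp only [Sum.elim_inl, Sum.elim_inr, Nat.cast_one, one_mul, Matrix.cons_val_zero,
      Matrix.cons_val_one] at *
    rw [h1, hv2, hc2]
    push_cast
    linear_combination (v (Sum.inr 1) * c (Sum.inr 1)) * h3
  · intro h
    constructor
    · rw [mem_tetraPow]
      intro c hc
      have h1 := h (Sum.elim c fun _ => 0) ⟨hc, rfl⟩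
      rw [Fintype.sum_sum_type] at h1
      simpa using h1
    · have h1 := h (Sum.elim (fun _ => 0) fun _ => 1) ⟨(tetraPow m).zero_mem, rfl⟩
      rw [Fintype.sum_sum_type, Fin.sum_univ_two] at h1
      simp only [Sum.elim_inl, Sum.elim_inr, mul_zero, Finset.sum_const_zero, zero_add,
        Matrix.cons_val_zero, Matrix.cons_val_one, Nat.cast_one, one_mul, mul_one] at h1
      push_cast at h1
      linear_combination h1 - v (Sum.inr 1) * h3

end codes

/-- The theorem described above. -/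
theorem result {K : Type} [Field K] [CharZero K] {ω : K} (hω : IsPrimitiveRoot ω 3) :
    (∀ (ι : Type) [Fintype ι] (k : ι → ℕ) (Γ : Submodule (ZMod 3) (ι → ZMod 3)), SelfDual k Γ →
      ((∀ i, k i = 1) ∧ ¬ 3 ∣ Fintype.card ι) ∨
        ((∃ j, k j = 2 ∧ ∀ i, i ≠ j → k i = 1) ∧ 3 ∣ Fintype.card ι) →
      -- there are no sections in degree one
      (∀ f, Inv ω k Γ 1 f → f ∈ I K ι) ∧
      -- at each point there are sections in the degrees 3 and 4 which do not vanish
      (∀ p, Cone p → ∃ f g, Inv ω k Γ 3 f ∧ Inv ω k Γ 4 g ∧ eval p f ≠ 0 ∧ eval p g ≠ 0) ∧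
      -- the action near the fixed points
      (∀ c ∈ Γ, ∀ (e : ZMod 3) (p : ι × Fin 3 → K) (lam : ι → K), Cone p → Fixes ω c e p lam →
        (e = 0 → c = 0) ∧ ∀ (i : ι) (t : Fin 3 → K),
          p (i, 0) ^ 2 * t 0 + p (i, 1) ^ 2 * t 1 + p (i, 2) ^ 2 * t 2 = 0 →
          ∃ μ : K, ∀ a, ω ^ (wt c e (i, a)).val * t a
            = lam i * ω ^ e.val * t a + μ * p (i, a))) ∧
    -- existence of the codes
    (∀ m : ℕ, ∃ Γ : Submodule (ZMod 3) (Fin m × Fin 4 → ZMod 3), SelfDual (fun _ => 1) Γ) ∧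
    (∀ m : ℕ, ∃ Γ : Submodule (ZMod 3) (Fin m × Fin 4 ⊕ Fin 2 → ZMod 3),
      SelfDual (Sum.elim (fun _ => 1) ![1, 2]) Γ) := by
  refine ⟨?_, fun m => ⟨_, selfDual_tetraPow m⟩, fun m => ⟨_, selfDual_tetraPowPair m⟩⟩
  intro ι _ k Γ hΓ hcase
  have hk : ∀ i, k i ≠ 0 := by
    rcases hcase with ⟨h, _⟩ | ⟨⟨j, hj, h⟩, _⟩
    · intro i
      rw [h i]
      exact one_ne_zero
    · intro i
      by_cases hi : i = j
      · rw [hi, hj]
        exact two_ne_zero
      · rw [h i hi]
        exact one_ne_zero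
  refine ⟨fun f hf => ?_, fun p hp => invertible hω.pow_eq_one hΓ hk hp,
    fun c _ e p lam hp hfix => ⟨free hω hp hfix, fun i t ht => tangent hω hp hfix i t ht⟩⟩
  rcases hcase with ⟨h, hn⟩ | ⟨⟨j, hj, h⟩, hn⟩
  · exact mem_of_noInv hω (noInv_one hΓ h hn) hf
  · exact mem_of_noInv hω (noInv_two hΓ j hj h hn) hf

end

end Pool.Agent.Results.MP_954e53_ag.TrivialCanonicalClass
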